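import Pool.Agent.Work.MP_659252_gt.S.Defs
import Pool.Agent.Work.MP_659252_gt.Y.Defs

/-!
# Auxiliary objects of the proof (nothing to prove here)

PLAN.  Theorem: if the continuous symmetric tensor `τ` is orthogonal to all odd elements of `T_d` supported in small
caps about `±e`, then `τ_{-e} = τ_e` on tangent vectors.  By rotation invariance let `e = e_0`.  For `c_i > 0` the
diagonal path `A_s = diag (s - 1, (1 + s) c_1, ..., (1 + s) c_d)`, `0 < s < 2`, is nested with level function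
`lv = (x_0² - q) / (x_0² + q)`, `q = ∑ c_i x_i²`, and for `B s = φ ((1 - s) / η)` the tensor `hD = conf A 2 B` is in `T_d`, odd,
and supported in cones shrinking to the axis `e_0` when `η → 0`.  In the rescaled variables `x_i ↦ √(η / c_i) x_i` the
integral of `pair τ hD` converges to a positive multiple of `∑ c_i σ (e_i, e_i)`, `σ = τ_{e_0} - τ_{-e_0}`.
-/

namespace Pool.Agent.Work.MP_659252_gt.S

open Pool.Agent.Work.MP_659252_gt.Z (V Ten val Tan InT)
open Pool.Agent.Work.MP_659252_gt.Y (Path conf)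

variable {d : ℕ}

/-- The tensor `R_* h`: `(R_* h)_x (v, w) = h_{Rᵀ x} (Rᵀ v, Rᵀ w)`. -/
def rotT (R : Matrix (Fin (d + 1)) (Fin (d + 1)) ℝ) (h : Ten d) : Ten d :=
  fun x i j => ∑ k, ∑ l, R i k * R j l * h (R.transpose.mulVec x) k l

/-- The first basis vector. -/
def e0 : V d := fun i => if i = 0 then 1 else 0

/-- `q = ∑_{i ≥ 1} c_i x_i²`. -/
def qd (c x : V d) : ℝ := ∑ i : Fin d, c i.succ * x i.succ ^ 2

/-- `r² = ∑_{i ≥ 1} x_i²`. -/
def rr (x : V d) : ℝ := ∑ i : Fin d, x i.succ ^ 2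

/-- The diagonal path. -/
def PD (c : V d) : Path d := fun s i j => if i = j then (if i = 0 then s - 1 else (1 + s) * c i) else 0

/-- Its level function. -/
noncomputable def lv (c x : V d) : ℝ := (x 0 ^ 2 - qd c x) / (x 0 ^ 2 + qd c x)

/-- The vector `A_s x`, `s = lv x`. -/
noncomputable def uD (c x : V d) : V d := fun i =>
  if i = 0 then -(2 * qd c x / (x 0 ^ 2 + qd c x)) * x 0 else 2 * x 0 ^ 2 / (x 0 ^ 2 + qd c x) * (c i * x i)

/-- The tensor. -/
noncomputable def hD (c : V d) (φ : ℝ → ℝ) (η : ℝ) : Ten d := conf (PD c) 2 (fun s => φ ((1 - s) / η))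

/-- Its weight. -/
noncomputable def wD (c : V d) (φ : ℝ → ℝ) (η : ℝ) (x : V d) : ℝ :=
  φ (2 * qd c x / (x 0 ^ 2 + qd c x) / η) / (x 0 ^ 2 + qd c x)

/-- Twice the odd part of `τ`, as a quadratic form in `v`, made homogeneous of degree `0` in `x`. -/
noncomputable def sg (τ : Ten d) (x v : V d) : ℝ :=
  val τ ((√(x ⬝ᵥ x))⁻¹ • x) v v - val τ (-((√(x ⬝ᵥ x))⁻¹ • x)) v v

/-- The rescaling `x_0 ↦ x_0`, `x_i ↦ √(η / c_i) x_i`. -/
noncomputable def dil (c : V d) (η : ℝ) (x : V d) : V d := fun i => if i = 0 then x 0 else √(η / c i) * x i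

/-- The rescaled vector: `uD c (dil c η x) = √η • uE c η x`. -/
noncomputable def uE (c : V d) (η : ℝ) (x : V d) : V d := fun i =>
  if i = 0 then -(2 * √η * rr x / (x 0 ^ 2 + η * rr x)) * x 0
  else 2 * x 0 ^ 2 / (x 0 ^ 2 + η * rr x) * (√(c i) * x i)

/-- The rescaled integrand (on the half space `x_0 > 0`). -/
noncomputable def KE (τ : Ten d) (c : V d) (φ : ℝ → ℝ) (η : ℝ) (x : V d) : ℝ :=
  {x : V d | 0 < x 0 ∧ dil c η x ⬝ᵥ dil c η x < 1}.indicator (fun x =>
    φ (2 * rr x / (x 0 ^ 2 + η * rr x)) / (x 0 ^ 2 + η * rr x) * sg τ (dil c η x) (uE c η x)) x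

/-- The vector `(0, √c_1 x_1, ..., √c_d x_d)`. -/
noncomputable def uZ (c x : V d) : V d := fun i => if i = 0 then 0 else √(c i) * x i

/-- The limit of the integrands. -/
noncomputable def KZ (τ : Ten d) (c : V d) (φ : ℝ → ℝ) (x : V d) : ℝ :=
  {x : V d | 0 < x 0 ∧ x 0 < 1}.indicator (fun x =>
    φ (2 * rr x / x 0 ^ 2) / x 0 ^ 2 * (4 * sg τ e0 (uZ c x))) x

/-- The cut-off function: smooth, nonnegative, supported in `[1, 2]`, positive on `(1, 2)`. -/
structure Cut (φ : ℝ → ℝ) : Prop where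
  smooth : ContDiff ℝ (⊤ : ℕ∞) φ
  nonneg : ∀ s, 0 ≤ φ s
  supp : ∀ s, s ∉ Set.Icc 1 2 → φ s = 0
  pos : ∀ s ∈ Set.Ioo (1 : ℝ) 2, 0 < φ s

end Pool.Agent.Work.MP_659252_gt.S
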