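import Pool.Agent.Work.MP_659252_gt.Z.Defs

/-!
# Scalar products with tangent vectors to the space of Zoll metrics: the objects of the theorem

The sphere `x ⬝ᵥ x = 1` of `V d = ℝ^{d+1}`, tensor fields (`Ten`, `val`), tangent vectors of the sphere (`Tan`) and the
set `T_d` (`InT`) are those of `Pool.Agent.Work.MP_659252_gt.Z.Defs`.
-/

namespace Pool.Agent.Work.MP_659252_gt.S

open Pool.Agent.Work.MP_659252_gt.Z (V Ten val Tan)

/-- The tensor `h` is odd under the antipodal map. -/
def IsOdd {d : ℕ} (h : Ten d) : Prop := ∀ x v w, Tan x v → Tan x w → val h (-x) v w = -val h x v w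

/-- The tensor `h` vanishes at the points of the sphere outside of the caps `⟨x, e⟩ > 1 - δ` and `⟨x, e⟩ < -(1 - δ)`. -/
def InCaps {d : ℕ} (e : V d) (δ : ℝ) (h : Ten d) : Prop :=
  ∀ x v w, Tan x v → Tan x w → |x ⬝ᵥ e| ≤ 1 - δ → val h x v w = 0

/-- The orthogonal projection of the `i`-th basis vector of `ℝ^{d+1}` to the tangent space of the sphere at `x`. -/
def pr {d : ℕ} (x : V d) (i : Fin (d + 1)) : V d := fun j => (if j = i then 1 else 0) - x i * x j

/-- The scalar product of the tensors `τ` and `h` on the tangent space of the sphere at `x`. -/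
def pair {d : ℕ} (τ h : Ten d) (x : V d) : ℝ :=
  ∑ i, ∑ j, val τ x (pr x i) (pr x j) * val h x (pr x i) (pr x j)

/-- The integral of `F (x / |x|)` over the unit ball, which is the integral of `F` over the sphere divided by
`d + 1`. -/
noncomputable def sint {d : ℕ} (F : V d → ℝ) : ℝ := ∫ x in {x : V d | x ⬝ᵥ x < 1}, F ((√(x ⬝ᵥ x))⁻¹ • x)

end Pool.Agent.Work.MP_659252_gt.S
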