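import Pool.Agent.Work.MP_659252_gt.S.Bas

/-!
# An orthogonal matrix with two prescribed columns.  Size: S.

PROOF.  In `E = EuclideanSpace ℝ (Fin (d + 1))` the vectors `e`, `v` are orthonormal; extend them to an orthonormal basis `b` indexed by `Fin (d + 1)` with
`b 0 = e`, `b 1 = v` (`Orthonormal.exists_orthonormalBasis_extension_of_card_eq`, `s = {0, 1}`); `R i j = b j i`.
-/

namespace Pool.Agent.Work.MP_659252_gt.S

open Pool.Agent.Work.MP_659252_gt.Z (V Ten val Tan InT)

variable {d : ℕ}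

theorem exists_rot (hd : 1 ≤ d) (e v : V d) (he : e ⬝ᵥ e = 1) (hv : v ⬝ᵥ v = 1) (hev : e ⬝ᵥ v = 0) :
    ∃ R ∈ Matrix.orthogonalGroup (Fin (d + 1)) ℝ, R.mulVec e0 = e ∧
      R.mulVec (fun i => if i = ⟨1, by omega⟩ then 1 else 0) = v := by
  classical
  obtain ⟨i1, hi1⟩ : ∃ i1 : Fin (d + 1), i1 = ⟨1, by omega⟩ := ⟨_, rfl⟩
  rw [← hi1]
  have h01 : (0 : Fin (d + 1)) ≠ i1 := by
    rw [hi1]
    intro h
    have := congrArg Fin.val h
    simp at this
  let f : Fin (d + 1) → EuclideanSpace ℝ (Fin (d + 1)) := fun i =>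
    if i = 0 then WithLp.toLp 2 e else WithLp.toLp 2 v
  have hin : ∀ x y : V d, inner ℝ (WithLp.toLp 2 x : EuclideanSpace ℝ (Fin (d + 1)))
      (WithLp.toLp 2 y) = x ⬝ᵥ y := by
    intro x y
    rw [EuclideanSpace.inner_eq_star_dotProduct]
    simp [dotProduct_comm]
  have hve : v ⬝ᵥ e = 0 := by rw [dotProduct_comm, hev]
  have hort : Orthonormal ℝ (Set.domRestrict ({0, i1} : Set (Fin (d + 1))) f) := by
    rw [orthonormal_iff_ite]
    rintro ⟨i, hi⟩ ⟨j, hj⟩
    have hi' := hi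
    have hj' := hj
    simp only [Set.mem_insert_iff, Set.mem_singleton_iff] at hi' hj'
    show inner ℝ (f i) (f j) = if (⟨i, hi⟩ : ({0, i1} : Set (Fin (d + 1)))) = ⟨j, hj⟩ then (1 : ℝ) else 0
    simp only [Subtype.mk.injEq]
    rcases hi' with hi' | hi' <;> rcases hj' with hj' | hj' <;> rw [hi', hj']
    · rw [if_pos rfl]
      have h1 : f 0 = WithLp.toLp 2 e := by simp [f]
      rw [h1, hin, he]
    · simp [f, hin, hev, h01, h01.symm]
    · simp [f, hin, hve, h01.symm]
    · rw [if_pos rfl]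
      have h1 : f i1 = WithLp.toLp 2 v := by simp [f, h01.symm]
      rw [h1, hin, hv]
  obtain ⟨b, hb⟩ := hort.exists_orthonormalBasis_extension_of_card_eq (by simp)
  have hb0 : b 0 = WithLp.toLp 2 e := by
    rw [hb 0 (by simp)]
    simp [f]
  have hb1 : b i1 = WithLp.toLp 2 v := by
    rw [hb i1 (by simp)]
    simp [f, h01.symm]
  refine ⟨Matrix.of fun i j => b j i, ?_, ?_, ?_⟩
  · rw [Matrix.mem_orthogonalGroup_iff']
    ext i j
    have h1 := (orthonormal_iff_ite.1 b.orthonormal) i j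
    rw [EuclideanSpace.inner_eq_star_dotProduct] at h1
    rw [Matrix.mul_apply, Matrix.one_apply, ← h1]
    simp only [Matrix.of_apply, star_trivial, dotProduct, Pi.star_apply]
    exact Finset.sum_congr rfl fun k _ => mul_comm _ _
  · funext i
    have h1 : (b 0) i = e i := by rw [hb0]
    simp [Matrix.mulVec, dotProduct, e0, h1]
  · funext i
    have h1 : (b i1) i = v i := by rw [hb1]
    simp [Matrix.mulVec, dotProduct, h1]

end Pool.Agent.Work.MP_659252_gt.S
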