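import Pool.Agent.Work.MP_659252_gt.S.Bas

/-!
# Rotation invariance of the integral over the sphere.  Size: S.

PROOF.  `R` preserves the Lebesgue measure of `Fin (d + 1) → ℝ` (`Real.map_matrix_volume_pi_eq_smul_volume_pi` with `|det R| = 1`; or
`MeasureTheory.Measure.addHaar_preimage_linearMap`), the ball `x ⬝ᵥ x < 1` and `x ↦ √(x ⬝ᵥ x)`, and `c • R x = R (c • x)`.
(`MeasurePreserving.setIntegral_preimage_emb` with the measurable equivalence given by `R`, inverse `Rᵀ`.)
-/

namespace Pool.Agent.Work.MP_659252_gt.S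

open Pool.Agent.Work.MP_659252_gt.Z (V Ten val Tan InT)

variable {d : ℕ}

private theorem rot_dot (R : Matrix (Fin (d + 1)) (Fin (d + 1)) ℝ)
    (hR : R ∈ Matrix.orthogonalGroup (Fin (d + 1)) ℝ) (x : V d) :
    R.mulVec x ⬝ᵥ R.mulVec x = x ⬝ᵥ x := by
  have h1 : R.transpose * R = 1 := (Matrix.mem_orthogonalGroup_iff' _ _).1 hR
  rw [Matrix.dotProduct_mulVec, Matrix.vecMul_mulVec, ← Matrix.dotProduct_mulVec, h1, Matrix.one_mulVec]

private theorem rot_pres (R : Matrix (Fin (d + 1)) (Fin (d + 1)) ℝ)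
    (hR : R ∈ Matrix.orthogonalGroup (Fin (d + 1)) ℝ) :
    MeasureTheory.MeasurePreserving (fun x : V d => R.mulVec x) := by
  have h1 : R.transpose * R = 1 := (Matrix.mem_orthogonalGroup_iff' _ _).1 hR
  have h2 : R.det * R.det = 1 := by
    have h3 := congrArg Matrix.det h1
    rwa [Matrix.det_mul, Matrix.det_transpose, Matrix.det_one] at h3
  have h3 : R.det ≠ 0 := by
    intro h
    rw [h, zero_mul] at h2
    exact zero_ne_one h2
  have h4 : |(R.det)⁻¹| = 1 := by
    have h5 : |R.det| * |R.det| = 1 := by rw [← abs_mul, h2, abs_one]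
    have h6 : |R.det| = 1 := by nlinarith [abs_nonneg R.det]
    rw [abs_inv, h6, inv_one]
  have h5 := Real.map_matrix_volume_pi_eq_smul_volume_pi h3
  rw [h4, ENNReal.ofReal_one, one_smul] at h5
  exact ⟨(Matrix.toLin' R).continuous_of_finiteDimensional.measurable, h5⟩

theorem sint_rot (R : Matrix (Fin (d + 1)) (Fin (d + 1)) ℝ) (hR : R ∈ Matrix.orthogonalGroup (Fin (d + 1)) ℝ)
    (F : V d → ℝ) : sint (fun x => F (R.mulVec x)) = sint F := by
  have h1 : R.transpose * R = 1 := (Matrix.mem_orthogonalGroup_iff' _ _).1 hR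
  have hinj : Function.Injective fun x : V d => R.mulVec x := by
    intro x y hxy
    have h2 : R.transpose.mulVec (R.mulVec x) = R.transpose.mulVec (R.mulVec y) := congrArg _ hxy
    rwa [Matrix.mulVec_mulVec, Matrix.mulVec_mulVec, h1, Matrix.one_mulVec, Matrix.one_mulVec] at h2
  have hc : Continuous fun x : V d => R.mulVec x := (Matrix.toLin' R).continuous_of_finiteDimensional
  have hme : MeasurableEmbedding fun x : V d => R.mulVec x := hc.measurableEmbedding hinj
  have h3 := (rot_pres R hR).setIntegral_preimage_emb hme (fun x => F ((√(x ⬝ᵥ x))⁻¹ • x))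
    {x : V d | x ⬝ᵥ x < 1}
  unfold sint
  rw [← h3]
  have h4 : (fun x : V d => R.mulVec x) ⁻¹' {x : V d | x ⬝ᵥ x < 1} = {x : V d | x ⬝ᵥ x < 1} := by
    ext x
    simp only [Set.mem_preimage, Set.mem_setOf_eq, rot_dot R hR]
  rw [h4]
  refine MeasureTheory.integral_congr_ae (Filter.Eventually.of_forall fun x => ?_)
  simp only
  rw [rot_dot R hR, Matrix.mulVec_smul]

/-- The integral only depends on the values on the sphere. -/
theorem sint_congr (F G : V d → ℝ) (h : ∀ x, x ⬝ᵥ x = 1 → F x = G x) : sint F = sint G := by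
  unfold sint
  refine MeasureTheory.integral_congr_ae ?_
  refine MeasureTheory.ae_restrict_of_ae ?_
  have h0 : ∀ᵐ x : V d, x ∉ ({0} : Set (V d)) :=
    MeasureTheory.measure_eq_zero_iff_ae_notMem.1 (MeasureTheory.measure_singleton 0)
  filter_upwards [h0] with x hx
  have hx0 : x ≠ 0 := fun h => hx h
  have hp : 0 < x ⬝ᵥ x := by
    refine lt_of_le_of_ne ?_ (Ne.symm (by rwa [Ne, dotProduct_self_eq_zero]))
    unfold dotProduct
    exact Finset.sum_nonneg fun i _ => mul_self_nonneg _
  apply h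
  rw [smul_dotProduct, dotProduct_smul, smul_eq_mul, smul_eq_mul, ← mul_assoc, ← mul_inv,
    Real.mul_self_sqrt hp.le, inv_mul_cancel₀ hp.ne']

end Pool.Agent.Work.MP_659252_gt.S
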