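import Pool.Agent.Work.MP_659252_gt.S.Rot
import Pool.Agent.Work.MP_659252_gt.S.SRot

/-!
# The scalar product is invariant under rotations.  Size: S-M.

PROOF.  `pr (R x) i = ∑ k, R i k • R (pr x k)` (`Rᵀ e_i = ∑ k, R i k e_k`, `(R x)_i = ∑ k, R i k x_k`, `R Rᵀ = 1`).  `val` is bilinear, so
`val τ (R x) (pr (R x) i) (pr (R x) j) = ∑ k l, R i k R j l a k l`, `a k l = val τ (R x) (R (pr x k)) (R (pr x l)) = val (rotT Rᵀ τ) x (pr x k) (pr x l)`
(`val_rotT`, `Rᵀᵀ = R`), and `val (rotT R h) (R x) (pr (R x) i) (pr (R x) j) = ∑ m n, R i m R j n b m n`, `b m n = val h x (pr x m) (pr x n)` (`Rᵀ R = 1`).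
Sum over `i`, `j` of the products: `∑ i, R i k R i m = δ_km`.  Better: with the matrices `a`, `b`: `trace ((R a Rᵀ)ᵀ (R b Rᵀ)) = trace (aᵀ b)`.
`sint_pair_rotT`: `sint_rot` for `F = pair τ (rotT R h)`, `sint_congr`, `pair_rotT`.
-/

namespace Pool.Agent.Work.MP_659252_gt.S

open Pool.Agent.Work.MP_659252_gt.Z (V Ten val Tan InT)

variable {d : ℕ}

private theorem pairR_val (G : Ten d) (x : V d) (U : Matrix (Fin (d + 1)) (Fin (d + 1)) ℝ)
    (i j : Fin (d + 1)) : val G x (U i) (U j) = (U * Matrix.of (G x) * U.transpose) i j := by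
  unfold val
  rw [Matrix.mul_apply, Finset.sum_comm]
  refine Finset.sum_congr rfl fun n _ => ?_
  rw [Matrix.mul_apply, Finset.sum_mul]
  refine Finset.sum_congr rfl fun m _ => ?_
  rw [Matrix.transpose_apply, Matrix.of_apply]
  ring

private theorem pairR_sum (R A B : Matrix (Fin (d + 1)) (Fin (d + 1)) ℝ)
    (hR : R.transpose * R = 1) :
    ∑ i, ∑ j, (R * A * R.transpose) i j * (R * B * R.transpose) i j = ∑ i, ∑ j, A i j * B i j := by
  have h1 := Matrix.sum_hadamard_eq (A := R * A * R.transpose) (B := R * B * R.transpose)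
  have h2 := Matrix.sum_hadamard_eq (A := A) (B := B)
  simp only [Matrix.hadamard_apply] at h1 h2
  rw [h1, h2]
  have h3 : R * A * R.transpose * (R * B * R.transpose).transpose =
      R * (A * B.transpose * R.transpose) := by
    rw [Matrix.transpose_mul, Matrix.transpose_mul, Matrix.transpose_transpose]
    calc R * A * R.transpose * (R * (B.transpose * R.transpose))
        = R * A * (R.transpose * R) * (B.transpose * R.transpose) := by
          simp only [Matrix.mul_assoc]
      _ = R * (A * B.transpose * R.transpose) := by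
          rw [hR, Matrix.mul_one]
          simp only [Matrix.mul_assoc]
  rw [h3, Matrix.trace_mul_comm, Matrix.mul_assoc (A * B.transpose), hR, Matrix.mul_one]

private theorem pairR_pr (R : Matrix (Fin (d + 1)) (Fin (d + 1)) ℝ) (hR : R.transpose * R = 1)
    (x : V d) (i : Fin (d + 1)) :
    R.transpose.mulVec (pr (R.mulVec x) i) = (R * Matrix.of (pr x)) i := by
  funext m
  have h1 : R.transpose.mulVec (R.mulVec x) = x := by
    rw [Matrix.mulVec_mulVec, hR, Matrix.one_mulVec]
  have h2 : R.transpose.mulVec (pr (R.mulVec x) i) m =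
      R i m - R.mulVec x i * R.transpose.mulVec (R.mulVec x) m := by
    show ∑ j, R j m * ((if j = i then 1 else 0) - R.mulVec x i * R.mulVec x j) =
      R i m - R.mulVec x i * ∑ j, R j m * R.mulVec x j
    simp only [mul_sub, Finset.sum_sub_distrib, mul_ite, mul_one, mul_zero,
      Finset.sum_ite_eq', Finset.mem_univ, if_true, Finset.mul_sum]
    congr 1
    refine Finset.sum_congr rfl fun j _ => ?_
    ring
  have h3 : (R * Matrix.of (pr x)) i m = R i m - R.mulVec x i * x m := by
    rw [Matrix.mul_apply]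
    show ∑ k, R i k * ((if m = k then 1 else 0) - x k * x m) = R i m - (∑ k, R i k * x k) * x m
    simp only [mul_sub, Finset.sum_sub_distrib, mul_ite, mul_one, mul_zero,
      Finset.sum_ite_eq, Finset.mem_univ, if_true, Finset.sum_mul]
    congr 1
    refine Finset.sum_congr rfl fun j _ => ?_
    ring
  rw [h2, h3, h1]

theorem pair_rotT (R : Matrix (Fin (d + 1)) (Fin (d + 1)) ℝ) (hR : R ∈ Matrix.orthogonalGroup (Fin (d + 1)) ℝ)
    (τ h : Ten d) (x : V d) : pair τ (rotT R h) (R.mulVec x) = pair (rotT R.transpose τ) h x := by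
  have hm1 : R * R.transpose = 1 := (Matrix.mem_orthogonalGroup_iff _ _).1 hR
  have hm2 : R.transpose * R = 1 := (Matrix.mem_orthogonalGroup_iff' _ _).1 hR
  have h1 : ∀ i j, val (rotT R h) (R.mulVec x) (pr (R.mulVec x) i) (pr (R.mulVec x) j) =
      (R * (Matrix.of (pr x) * Matrix.of (h x) * (Matrix.of (pr x)).transpose) *
        R.transpose) i j := by
    intro i j
    rw [val_rotT, pairR_pr R hm2, pairR_pr R hm2, pairR_val, Matrix.mulVec_mulVec, hm2,
      Matrix.one_mulVec, Matrix.transpose_mul]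
    simp only [Matrix.mul_assoc]
  have h2 : ∀ i j, val τ (R.mulVec x) (pr (R.mulVec x) i) (pr (R.mulVec x) j) =
      (R * (Matrix.of (pr x) * Matrix.of (rotT R.transpose τ x) *
        (Matrix.of (pr x)).transpose) * R.transpose) i j := by
    intro i j
    have h3 : ∀ v : V d, R.mulVec (R.transpose.mulVec v) = v := by
      intro v
      rw [Matrix.mulVec_mulVec, hm1, Matrix.one_mulVec]
    have h4 := val_rotT R.transpose τ x (R.transpose.mulVec (pr (R.mulVec x) i))
      (R.transpose.mulVec (pr (R.mulVec x) j))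
    rw [Matrix.transpose_transpose, h3, h3] at h4
    rw [← h4, pairR_pr R hm2, pairR_pr R hm2, pairR_val, Matrix.transpose_mul]
    simp only [Matrix.mul_assoc]
  unfold pair
  simp only [h1, h2]
  rw [pairR_sum R _ _ hm2]
  refine Finset.sum_congr rfl fun i _ => Finset.sum_congr rfl fun j _ => ?_
  rw [← pairR_val, ← pairR_val]
  rfl

theorem sint_pair_rotT (R : Matrix (Fin (d + 1)) (Fin (d + 1)) ℝ)
    (hR : R ∈ Matrix.orthogonalGroup (Fin (d + 1)) ℝ) (τ h : Ten d) :
    sint (pair τ (rotT R h)) = sint (pair (rotT R.transpose τ) h) := by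
  rw [← sint_rot R hR (pair τ (rotT R h))]
  exact sint_congr _ _ fun x _ => pair_rotT R hR τ h x

end Pool.Agent.Work.MP_659252_gt.S
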