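import Pool.Agent.Work.MP_659252_gt.S.Rot

/-!
# Rotated tensors: parity, support, continuity.  Size: S.

PROOF.  `val_rotT` and, for orthogonal `R`, `(Rᵀ x) ⬝ᵥ (Rᵀ y) = x ⬝ᵥ y`, `Rᵀ (-x) = -Rᵀ x`, `x ⬝ᵥ (R e) = (Rᵀ x) ⬝ᵥ e`.
`rotT_cont`: `Rᵀ` maps the sphere to itself continuously; finite sums.
-/

namespace Pool.Agent.Work.MP_659252_gt.S

open Pool.Agent.Work.MP_659252_gt.Z (V Ten val Tan InT)

variable {d : ℕ}

private lemma rb_dot (R : Matrix (Fin (d + 1)) (Fin (d + 1)) ℝ) (hR : R ∈ Matrix.orthogonalGroup (Fin (d + 1)) ℝ)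
    (x y : V d) : (R.transpose.mulVec x) ⬝ᵥ (R.transpose.mulVec y) = x ⬝ᵥ y := by
  have h1 : R * R.transpose = 1 := (Matrix.mem_orthogonalGroup_iff (Fin (d + 1)) ℝ).1 hR
  rw [Matrix.dotProduct_mulVec, Matrix.vecMul_transpose, Matrix.mulVec_mulVec, h1, Matrix.one_mulVec]

private lemma rb_tan (R : Matrix (Fin (d + 1)) (Fin (d + 1)) ℝ) (hR : R ∈ Matrix.orthogonalGroup (Fin (d + 1)) ℝ)
    {x v : V d} (h : Tan x v) : Tan (R.transpose.mulVec x) (R.transpose.mulVec v) := by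
  unfold Pool.Agent.Work.MP_659252_gt.Z.Tan at h ⊢
  rw [rb_dot R hR, rb_dot R hR]
  exact h

theorem IsOdd_rotT (R : Matrix (Fin (d + 1)) (Fin (d + 1)) ℝ) (hR : R ∈ Matrix.orthogonalGroup (Fin (d + 1)) ℝ)
    (h : Ten d) (hh : IsOdd h) : IsOdd (rotT R h) := by
  intro x v w hv hw
  rw [val_rotT, val_rotT, Matrix.mulVec_neg]
  exact hh _ _ _ (rb_tan R hR hv) (rb_tan R hR hw)

theorem InCaps_rotT (R : Matrix (Fin (d + 1)) (Fin (d + 1)) ℝ) (hR : R ∈ Matrix.orthogonalGroup (Fin (d + 1)) ℝ)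
    (e : V d) (δ : ℝ) (h : Ten d) (hh : InCaps e δ h) : InCaps (R.mulVec e) δ (rotT R h) := by
  intro x v w hv hw hx
  rw [val_rotT]
  refine hh _ _ _ (rb_tan R hR hv) (rb_tan R hR hw) ?_
  have h1 : x ⬝ᵥ (R.mulVec e) = (R.transpose.mulVec x) ⬝ᵥ e := by
    rw [Matrix.dotProduct_mulVec, Matrix.mulVec_transpose]
  rwa [h1] at hx

theorem rotT_cont (R : Matrix (Fin (d + 1)) (Fin (d + 1)) ℝ) (hR : R ∈ Matrix.orthogonalGroup (Fin (d + 1)) ℝ)
    (τ : Ten d) (hτ : ContinuousOn τ {x | x ⬝ᵥ x = 1}) : ContinuousOn (rotT R τ) {x | x ⬝ᵥ x = 1} := by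
  have h1 : ContinuousOn (fun x : V d => τ (R.transpose.mulVec x)) {x | x ⬝ᵥ x = 1} := by
    refine hτ.comp (t := {x : V d | x ⬝ᵥ x = 1}) (f := fun x : V d => R.transpose.mulVec x) ?_ ?_
    · exact (Continuous.matrix_mulVec continuous_const continuous_id).continuousOn
    · intro x hx
      show (R.transpose.mulVec x) ⬝ᵥ (R.transpose.mulVec x) = 1
      rw [rb_dot R hR]
      exact hx
  refine continuousOn_pi.2 fun i => continuousOn_pi.2 fun j => ?_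
  unfold rotT
  refine continuousOn_finsetSum _ fun k _ => continuousOn_finsetSum _ fun l _ => ?_
  have h2 := continuousOn_pi.1 (continuousOn_pi.1 h1 k) l
  exact continuousOn_const.mul h2

end Pool.Agent.Work.MP_659252_gt.S
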