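import Pool.Agent.Work.MP_659252_gt.S.Key
import Pool.Agent.Work.MP_659252_gt.S.Ex
import Pool.Agent.Work.MP_659252_gt.S.RotB
import Pool.Agent.Work.MP_659252_gt.S.PairR

/-!
# Final assembly.  Size: S-M.

PROOF.  `fin_unit`: let `v` be a unit tangent vector at `e`, `R` from `exists_rot`, `τ' = rotT Rᵀ τ` (continuous: `rotT_cont`).  For `h ∈ T_d` odd and in the caps
about `e0`, `rotT R h ∈ T_d` is odd and in the caps about `R e0 = e`, so `0 = sint (pair τ (rotT R h)) = sint (pair τ' h)` (`sint_pair_rotT`).  So `key` gives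
`τ' e0 i i = τ' (-e0) i i`, `i = 1`, that is `val τ' e0 b b = val τ' (-e0) b b`, `b` the basis vector, and by `val_rotT` (`Rᵀᵀ = R`) `val τ e v v = val τ (-e) v v`.
`main`: `val` is bilinear, so by scaling the same for all tangent `v`; then polarisation, `τ` is symmetric.
-/

namespace Pool.Agent.Work.MP_659252_gt.S

open Pool.Agent.Work.MP_659252_gt.Z (V Ten val Tan InT)

variable {d : ℕ}

theorem fin_unit (hd : 3 ≤ d) (τ : Ten d) (hτ : ContinuousOn τ {x | x ⬝ᵥ x = 1}) (e : V d) (he : e ⬝ᵥ e = 1)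
    (δ : ℝ) (hδ : 0 < δ) (horth : ∀ h : Ten d, InT h → IsOdd h → InCaps e δ h → sint (pair τ h) = 0)
    (v : V d) (hv : v ⬝ᵥ v = 1) (hev : e ⬝ᵥ v = 0) : val τ (-e) v v = val τ e v v := by
  obtain ⟨R, hR, hRe, hRv⟩ := exists_rot (by omega) e v he hv hev
  have hRt : R.transpose ∈ Matrix.orthogonalGroup (Fin (d + 1)) ℝ := by
    rw [Matrix.mem_orthogonalGroup_iff, Matrix.transpose_transpose]
    exact (Matrix.mem_orthogonalGroup_iff' _ _).1 hR
  have h4 := key hd (rotT R.transpose τ) (rotT_cont R.transpose hRt τ hτ) δ hδ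
    (fun h hT ho hc => by
      have h1 := horth (rotT R h) (InT_rotT R hR h hT) (IsOdd_rotT R hR h ho)
        (by rw [← hRe]; exact InCaps_rotT R hR e0 δ h hc)
      rw [sint_pair_rotT R hR] at h1
      exact h1) (⟨0, by omega⟩ : Fin d)
  have h5 : (⟨0, by omega⟩ : Fin d).succ = ⟨1, by omega⟩ := rfl
  rw [h5] at h4
  have h6 : ∀ x : V d, rotT R.transpose τ x ⟨1, by omega⟩ ⟨1, by omega⟩ =
      val τ (R.mulVec x) v v := by
    intro x
    have h7 := val_rotT R.transpose τ x (fun i => if i = ⟨1, by omega⟩ then 1 else 0)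
      (fun i => if i = ⟨1, by omega⟩ then 1 else 0)
    rw [Matrix.transpose_transpose, hRv] at h7
    rw [← h7]
    unfold val
    simp
  rw [h6, h6, Matrix.mulVec_neg, hRe] at h4
  exact h4.symm

private theorem val_add_add (h : Ten d) (hs : ∀ x i j, h x i j = h x j i) (x v w : V d) :
    val h x (v + w) (v + w) = val h x v v + 2 * val h x v w + val h x w w := by
  have h1 : val h x w v = val h x v w := by
    unfold val
    rw [Finset.sum_comm]
    refine Finset.sum_congr rfl fun i _ => Finset.sum_congr rfl fun j _ => ?_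
    rw [hs x j i]
    ring
  have h2 : val h x (v + w) (v + w) = val h x v v + val h x v w + val h x w v + val h x w w := by
    unfold val
    simp only [← Finset.sum_add_distrib]
    refine Finset.sum_congr rfl fun i _ => Finset.sum_congr rfl fun j _ => ?_
    simp only [Pi.add_apply]
    ring
  rw [h2, h1]
  ring

private theorem val_smul_smul (h : Ten d) (x v : V d) (c : ℝ) :
    val h x (c • v) (c • v) = c ^ 2 * val h x v v := by
  unfold val
  rw [Finset.mul_sum]
  refine Finset.sum_congr rfl fun i _ => ?_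
  rw [Finset.mul_sum]
  refine Finset.sum_congr rfl fun j _ => ?_
  simp only [Pi.smul_apply, smul_eq_mul]
  ring

theorem main (d : ℕ) (hd : 3 ≤ d) (τ : Ten d) (hτ : ContinuousOn τ {x | x ⬝ᵥ x = 1})
    (hs : ∀ x i j, τ x i j = τ x j i) (e : V d) (he : e ⬝ᵥ e = 1) (δ : ℝ) (hδ : 0 < δ)
    (horth : ∀ h : Ten d, InT h → IsOdd h → InCaps e δ h → sint (pair τ h) = 0) :
    ∀ v w, Tan e v → Tan e w → val τ (-e) v w = val τ e v w := by
  have h1 : ∀ v : V d, e ⬝ᵥ v = 0 → val τ (-e) v v = val τ e v v := by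
    intro v hev
    by_cases hv : v = 0
    · subst hv
      simp [val]
    · have h2 : 0 < v ⬝ᵥ v := by
        have h3 : 0 ≤ v ⬝ᵥ v := Finset.sum_nonneg fun i _ => mul_self_nonneg _
        rcases h3.lt_or_eq with h4 | h4
        · exact h4
        · exact absurd (dotProduct_self_eq_zero.1 h4.symm) hv
      have h5 : 0 < √(v ⬝ᵥ v) := Real.sqrt_pos.2 h2
      have h6 := fin_unit hd τ hτ e he δ hδ horth ((√(v ⬝ᵥ v))⁻¹ • v) (by
        rw [dotProduct_smul, smul_dotProduct, smul_eq_mul, smul_eq_mul, ← mul_assoc,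
          ← mul_inv, Real.mul_self_sqrt h2.le]
        exact inv_mul_cancel₀ h2.ne') (by rw [dotProduct_smul, hev, smul_zero])
      rw [val_smul_smul, val_smul_smul] at h6
      have h7 : ((√(v ⬝ᵥ v))⁻¹) ^ 2 ≠ 0 := pow_ne_zero _ (inv_ne_zero h5.ne')
      exact mul_left_cancel₀ h7 h6
  intro v w hv hw
  have h2 := h1 (v + w) (by rw [dotProduct_add, hv.2, hw.2, add_zero])
  rw [val_add_add τ hs, val_add_add τ hs, h1 v hv.2, h1 w hw.2] at h2
  linarith

end Pool.Agent.Work.MP_659252_gt.S
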