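import Pool.Agent.Work.MP_659252_gt.S.PDb

/-!
# The pairing as an integral over the half ball.  Size: M.

PROOF.  For `x ≠ 0` in the ball let `y = x / |x|`.  `wD`, `uD` are homogeneous: `wD c φ η y = |x|² wD c φ η x`, `uD c y = |x|⁻¹ • uD c x`, so by `pair_hD`
`pair τ (hD c φ η) y = sign (x_0) g x`, `g x = 2 wD c φ η x * val τ y (uD c x) (uD c x)` (`sign (y_0) = sign (x_0)`).
Integrability on the ball: `g` is continuous on `{0}ᶜ` and bounded on the ball: `τ` is bounded on the compact sphere, `φ` is bounded, and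
`(uD c x) ⬝ᵥ (uD c x) / (x_0² + qd c x)` is homogeneous of degree `0` and continuous on `{0}ᶜ`, hence bounded (or directly: `|2q/(x_0²+q)| ≤ 2`,
`2 x_0²/(x_0²+q) ≤ 2`, `x_0² + ∑ c_i² x_i² ≤ (1 + max c) (x_0² + q)`).  A bounded function, continuous on `{0}ᶜ`, is integrable on the ball (finite
measure, `{0}` is null for `d + 1 ≥ 1`).
Split the ball in `x_0 > 0`, `x_0 < 0` and `x_0 = 0` (there `sign = 0`), and on `x_0 < 0` substitute `x ↦ -x` (measure preserving): `wD (-x) = wD x`,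
`uD (-x) = -uD x`, `sign (-x_0) = -1`, and `y ↦ -y`.  Sum: `∫_{x_0 > 0} 2 wD x (val τ y u u - val τ (-y) u u)`.
-/

namespace Pool.Agent.Work.MP_659252_gt.S

open Pool.Agent.Work.MP_659252_gt.Z (V Ten val Tan InT)

variable {d : ℕ}

/-- the direction of `x` -/
private noncomputable def hbY (x : V d) : V d := (√(x ⬝ᵥ x))⁻¹ • x

/-- the integrands, `s = ±1` -/
private noncomputable def hbK (c : V d) (φ : ℝ → ℝ) (η : ℝ) (τ : Ten d) (s : ℝ) (x : V d) : ℝ :=
  wD c φ η x * val τ (s • hbY x) (uD c x) (uD c x)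

private theorem hb_dot_pos {x : V d} (hx : x ≠ 0) : 0 < x ⬝ᵥ x := by
  have h0 : 0 ≤ x ⬝ᵥ x := Finset.sum_nonneg fun i _ => mul_self_nonneg (x i)
  rcases h0.lt_or_eq with h | h
  · exact h
  · exact absurd (dotProduct_self_eq_zero.1 h.symm) hx

private theorem hb_qd_smul (c x : V d) (t : ℝ) : qd c (t • x) = t ^ 2 * qd c x := by
  unfold qd
  rw [Finset.mul_sum]
  refine Finset.sum_congr rfl fun i _ => ?_
  show c i.succ * (t * x i.succ) ^ 2 = _
  ring

private theorem hb_den_smul (c x : V d) (t : ℝ) :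
    (t • x) 0 ^ 2 + qd c (t • x) = t ^ 2 * (x 0 ^ 2 + qd c x) := by
  rw [hb_qd_smul]
  show (t * x 0) ^ 2 + _ = _
  ring

private theorem hb_ratio (c x : V d) {t : ℝ} (ht : t ≠ 0) :
    2 * qd c (t • x) / ((t • x) 0 ^ 2 + qd c (t • x)) = 2 * qd c x / (x 0 ^ 2 + qd c x) := by
  rw [hb_den_smul, hb_qd_smul]
  have h2 : t ^ 2 ≠ 0 := pow_ne_zero 2 ht
  rw [show 2 * (t ^ 2 * qd c x) = t ^ 2 * (2 * qd c x) by ring]
  exact mul_div_mul_left _ _ h2

private theorem hb_ratio2 (c x : V d) {t : ℝ} (ht : t ≠ 0) :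
    2 * (t • x) 0 ^ 2 / ((t • x) 0 ^ 2 + qd c (t • x)) = 2 * x 0 ^ 2 / (x 0 ^ 2 + qd c x) := by
  rw [hb_den_smul]
  have h2 : t ^ 2 ≠ 0 := pow_ne_zero 2 ht
  rw [show 2 * (t • x) 0 ^ 2 = t ^ 2 * (2 * x 0 ^ 2) by
    show 2 * (t * x 0) ^ 2 = _
    ring]
  exact mul_div_mul_left _ _ h2

private theorem hb_wD (c x : V d) (φ : ℝ → ℝ) (η : ℝ) {t : ℝ} (ht : t ≠ 0) :
    wD c φ η (t • x) = (t ^ 2)⁻¹ * wD c φ η x := by
  unfold wD
  rw [hb_ratio c x ht, hb_den_smul, mul_comm (t ^ 2), ← div_div, div_eq_mul_inv _ (t ^ 2), mul_comm]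

private theorem hb_uD (c x : V d) {t : ℝ} (ht : t ≠ 0) : uD c (t • x) = t • uD c x := by
  funext i
  show uD c (t • x) i = t * uD c x i
  unfold uD
  rw [hb_ratio c x ht, hb_ratio2 c x ht]
  split_ifs with h
  · show -(2 * qd c x / (x 0 ^ 2 + qd c x)) * (t * x 0) = _
    ring
  · show 2 * x 0 ^ 2 / (x 0 ^ 2 + qd c x) * (c i * (t * x i)) = _
    ring

private theorem hb_val_smul (τ : Ten d) (z u : V d) (t : ℝ) :
    val τ z (t • u) (t • u) = t ^ 2 * val τ z u u := by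
  unfold val
  rw [Finset.mul_sum]
  refine Finset.sum_congr rfl fun i _ => ?_
  rw [Finset.mul_sum]
  refine Finset.sum_congr rfl fun j _ => ?_
  show τ z i j * (t * u i * (t * u j)) = _
  ring

private theorem hb_t_pos {x : V d} (hx : x ≠ 0) : 0 < (√(x ⬝ᵥ x))⁻¹ :=
  inv_pos.2 (Real.sqrt_pos.2 (hb_dot_pos hx))

private theorem hb_y_sph {x : V d} (hx : x ≠ 0) : hbY x ⬝ᵥ hbY x = 1 := by
  unfold hbY
  rw [smul_dotProduct, dotProduct_smul, smul_eq_mul, smul_eq_mul, ← mul_assoc, ← mul_inv,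
    Real.mul_self_sqrt (hb_dot_pos hx).le, inv_mul_cancel₀ (hb_dot_pos hx).ne']

private theorem hb_y_self {z : V d} (hz : z ⬝ᵥ z = 1) : hbY z = z := by
  unfold hbY
  rw [hz, Real.sqrt_one, inv_one, one_smul]

private theorem hb_y_ne {x : V d} (hx : x ≠ 0) : hbY x ≠ 0 := by
  intro h
  have h1 := hb_y_sph hx
  rw [h, zero_dotProduct] at h1
  exact zero_ne_one h1

/-- homogeneity of degree 0 -/
private theorem hb_K_hom (c : V d) (φ : ℝ → ℝ) (η : ℝ) (τ : Ten d) (s : ℝ) {x : V d} (hx : x ≠ 0) :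
    hbK c φ η τ s x = hbK c φ η τ s (hbY x) := by
  have ht := hb_t_pos hx
  unfold hbK
  rw [hb_y_self (hb_y_sph hx)]
  have h1 : wD c φ η (hbY x) = ((√(x ⬝ᵥ x))⁻¹ ^ 2)⁻¹ * wD c φ η x := hb_wD c x φ η ht.ne'
  have h2 : uD c (hbY x) = (√(x ⬝ᵥ x))⁻¹ • uD c x := hb_uD c x ht.ne'
  rw [h1, h2, hb_val_smul]
  have h3 : (√(x ⬝ᵥ x))⁻¹ ^ 2 ≠ 0 := pow_ne_zero 2 ht.ne'
  rw [mul_mul_mul_comm, inv_mul_cancel₀ h3, one_mul]

private theorem hb_cont_qd (c : V d) : Continuous (qd c) := by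
  unfold qd
  fun_prop

private theorem hb_cont_ratio (c : V d) (hc : ∀ i, 0 < c i) :
    ContinuousOn (fun x : V d => 2 * qd c x / (x 0 ^ 2 + qd c x)) {0}ᶜ := by
  have h := hb_cont_qd c
  refine ContinuousOn.div (by fun_prop) (by fun_prop) fun x hx => ?_
  exact (pos_PD c hc x hx).ne'

private theorem hb_cont_wD (c : V d) (hc : ∀ i, 0 < c i) (φ : ℝ → ℝ) (hφ : Cut φ) (η : ℝ) :
    ContinuousOn (wD c φ η) {0}ᶜ := by
  have h := hb_cont_qd c
  unfold wD
  refine ContinuousOn.div ?_ (by fun_prop) fun x hx => (pos_PD c hc x hx).ne'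
  exact hφ.smooth.continuous.comp_continuousOn ((hb_cont_ratio c hc).div_const η)

private theorem hb_cont_uD (c : V d) (hc : ∀ i, 0 < c i) : ContinuousOn (uD c) {0}ᶜ := by
  have h := hb_cont_qd c
  refine continuousOn_pi.2 fun i => ?_
  unfold uD
  by_cases hi : i = 0
  · simp only [hi, if_true]
    exact ((hb_cont_ratio c hc).neg).mul (continuous_apply 0).continuousOn
  · simp only [hi, if_false]
    refine ContinuousOn.mul ?_ (by fun_prop)
    exact ContinuousOn.div (by fun_prop) (by fun_prop) fun x hx => (pos_PD c hc x hx).ne'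

private theorem hb_cont_y : ContinuousOn (hbY : V d → V d) {0}ᶜ := by
  have h1 : Continuous fun x : V d => √(x ⬝ᵥ x) := by
    refine Real.continuous_sqrt.comp ?_
    show Continuous fun x : V d => ∑ i, x i * x i
    fun_prop
  exact (h1.continuousOn.inv₀ fun x hx => (Real.sqrt_pos.2 (hb_dot_pos hx)).ne').smul continuousOn_id

private theorem hb_cont_K (c : V d) (hc : ∀ i, 0 < c i) (φ : ℝ → ℝ) (hφ : Cut φ) (η : ℝ)
    (τ : Ten d) (hτ : ContinuousOn τ {x | x ⬝ᵥ x = 1}) {s : ℝ} (hs : s * s = 1) :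
    ContinuousOn (hbK c φ η τ s) {0}ᶜ := by
  have h1 := hb_cont_wD c hc φ hφ η
  have h2 := hb_cont_uD c hc
  have h3 : ContinuousOn (fun x : V d => s • hbY x) {0}ᶜ := hb_cont_y.const_smul s
  have h4 : ContinuousOn (fun x : V d => τ (s • hbY x)) {0}ᶜ := by
    refine hτ.comp h3 fun x hx => ?_
    show (s • hbY x) ⬝ᵥ (s • hbY x) = 1
    rw [smul_dotProduct, dotProduct_smul, hb_y_sph hx, smul_eq_mul, smul_eq_mul, mul_one, hs]
  unfold hbK
  refine h1.mul ?_
  unfold val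
  refine continuousOn_finsetSum _ fun i _ => continuousOn_finsetSum _ fun j _ => ?_
  refine ContinuousOn.mul ?_ (ContinuousOn.mul ?_ ?_)
  · exact continuousOn_pi.1 (continuousOn_pi.1 h4 i) j
  · exact continuousOn_pi.1 h2 i
  · exact continuousOn_pi.1 h2 j

private theorem hb_sph_compact : IsCompact {x : V d | x ⬝ᵥ x = 1} := by
  refine Metric.isCompact_of_isClosed_isBounded ?_ ?_
  · refine isClosed_eq ?_ continuous_const
    show Continuous fun x : V d => ∑ i, x i * x i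
    fun_prop
  · refine (Metric.isBounded_closedBall (x := (0 : V d)) (r := 1)).subset fun x hx => ?_
    rw [mem_closedBall_zero_iff, pi_norm_le_iff_of_nonneg zero_le_one]
    intro i
    have h1 : x i * x i ≤ x ⬝ᵥ x :=
      Finset.single_le_sum (f := fun j => x j * x j) (fun j _ => mul_self_nonneg (x j))
        (Finset.mem_univ i)
    change x ⬝ᵥ x = 1 at hx
    rw [hx] at h1
    rw [Real.norm_eq_abs]
    exact abs_le_one_iff_mul_self_le_one.2 h1

private theorem hb_ball_sub : {x : V d | x ⬝ᵥ x < 1} ⊆ Metric.closedBall (0 : V d) 1 := by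
  intro x hx
  rw [mem_closedBall_zero_iff, pi_norm_le_iff_of_nonneg zero_le_one]
  intro i
  have h1 : x i * x i ≤ x ⬝ᵥ x :=
    Finset.single_le_sum (f := fun j => x j * x j) (fun j _ => mul_self_nonneg (x j))
      (Finset.mem_univ i)
  have h2 : x ⬝ᵥ x < 1 := hx
  rw [Real.norm_eq_abs]
  exact abs_le_one_iff_mul_self_le_one.2 (h1.trans h2.le)

private theorem hb_ball_fin : MeasureTheory.volume {x : V d | x ⬝ᵥ x < 1} < ⊤ :=
  (MeasureTheory.measure_mono hb_ball_sub).trans_lt (isCompact_closedBall _ _).measure_lt_top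

private theorem hb_ball_meas : MeasurableSet {x : V d | x ⬝ᵥ x < 1} := by
  refine (isOpen_lt ?_ continuous_const).measurableSet
  show Continuous fun x : V d => ∑ i, x i * x i
  fun_prop

private theorem hb_int (c : V d) (hc : ∀ i, 0 < c i) (φ : ℝ → ℝ) (hφ : Cut φ) (η : ℝ)
    (τ : Ten d) (hτ : ContinuousOn τ {x | x ⬝ᵥ x = 1}) {s : ℝ} (hs : s * s = 1) (T : Set (V d))
    (hT : MeasurableSet T) (h1 : T ⊆ {x | x ⬝ᵥ x < 1}) (h0 : T ⊆ {0}ᶜ) :
    MeasureTheory.IntegrableOn (hbK c φ η τ s) T := by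
  have hc1 := hb_cont_K c hc φ hφ η τ hτ hs
  have hsub : {x : V d | x ⬝ᵥ x = 1} ⊆ {0}ᶜ := by
    intro x hx h2
    rw [Set.mem_singleton_iff] at h2
    change x ⬝ᵥ x = 1 at hx
    rw [h2, zero_dotProduct] at hx
    exact zero_ne_one hx
  obtain ⟨C, hC⟩ := hb_sph_compact.exists_bound_of_continuousOn (hc1.mono hsub)
  refine MeasureTheory.IntegrableOn.of_bound
    ((MeasureTheory.measure_mono h1).trans_lt hb_ball_fin)
    ((hc1.mono h0).aestronglyMeasurable hT) C ?_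
  filter_upwards [MeasureTheory.ae_restrict_mem hT] with x hx
  rw [hb_K_hom c φ η τ s (h0 hx)]
  exact hC _ (hb_y_sph (h0 hx))

private theorem hb_neg_y (x : V d) : hbY (-x) = - hbY x := by
  unfold hbY
  rw [neg_dotProduct_neg, smul_neg]

private theorem hb_K_neg (c : V d) (φ : ℝ → ℝ) (η : ℝ) (τ : Ten d) (x : V d) :
    hbK c φ η τ 1 (-x) = hbK c φ η τ (-1) x := by
  have h1 : -x = (-1 : ℝ) • x := by rw [neg_smul, one_smul]
  have e1 : wD c φ η (-x) = wD c φ η x := by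
    rw [h1, hb_wD c x φ η (by norm_num)]
    norm_num
  have e2 : uD c (-x) = (-1 : ℝ) • uD c x := by
    rw [h1, hb_uD c x (by norm_num)]
  have e3 : (1 : ℝ) • hbY (-x) = (-1 : ℝ) • hbY x := by
    rw [hb_neg_y, one_smul, neg_smul, one_smul]
  unfold hbK
  rw [e1, e2, e3, hb_val_smul]
  ring

theorem sint_hD (c : V d) (hc : ∀ i, 0 < c i) (φ : ℝ → ℝ) (hφ : Cut φ) (η : ℝ) (h0 : 0 < η) (h1 : η < 1 / 2)
    (τ : Ten d) (hτ : ContinuousOn τ {x | x ⬝ᵥ x = 1}) :
    sint (pair τ (hD c φ η)) =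
      2 * ∫ x in {x : V d | 0 < x 0 ∧ x ⬝ᵥ x < 1}, wD c φ η x * sg τ x (uD c x) := by
  classical
  have hcoord : ∀ {x : V d}, x 0 ≠ 0 → x ≠ 0 := by
    intro x h h2
    rw [h2] at h
    exact h rfl
  set P : Set (V d) := {x | 0 < x 0 ∧ x ⬝ᵥ x < 1} with hP
  set N : Set (V d) := {x | x 0 < 0 ∧ x ⬝ᵥ x < 1} with hN
  set B : Set (V d) := {x | x ⬝ᵥ x < 1} with hB
  have hPm : MeasurableSet P :=
    ((isOpen_lt continuous_const (continuous_apply 0)).measurableSet).inter hb_ball_meas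
  have hNm : MeasurableSet N :=
    ((isOpen_lt (continuous_apply 0) continuous_const).measurableSet).inter hb_ball_meas
  have hP0 : P ⊆ {0}ᶜ := fun x hx => hcoord hx.1.ne'
  have hN0 : N ⊆ {0}ᶜ := fun x hx => hcoord hx.1.ne
  have hPB : P ⊆ {x | x ⬝ᵥ x < 1} := fun x hx => hx.2
  have hNB : N ⊆ {x | x ⬝ᵥ x < 1} := fun x hx => hx.2
  have iP1 := hb_int c hc φ hφ η τ hτ (s := 1) (by norm_num) P hPm hPB hP0
  have iP2 := hb_int c hc φ hφ η τ hτ (s := -1) (by norm_num) P hPm hPB hP0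
  have iN1 := hb_int c hc φ hφ η τ hτ (s := 1) (by norm_num) N hNm hNB hN0
  have hval : ∀ x : V d, x 0 ≠ 0 → pair τ (hD c φ η) ((√(x ⬝ᵥ x))⁻¹ • x) =
      2 * Real.sign (x 0) * hbK c φ η τ 1 x := by
    intro x hx0
    have hx := hcoord hx0
    have h2 : pair τ (hD c φ η) (hbY x) =
        2 * Real.sign (hbY x 0) * wD c φ η (hbY x) * val τ (hbY x) (uD c (hbY x)) (uD c (hbY x)) :=
      pair_hD c hc φ hφ η h0 h1 τ (hbY x) (hb_y_sph hx)
    have h3 : Real.sign (hbY x 0) = Real.sign (x 0) := by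
      have ht := hb_t_pos hx
      show Real.sign ((√(x ⬝ᵥ x))⁻¹ * x 0) = _
      rcases lt_or_gt_of_ne hx0 with h4 | h4
      · rw [Real.sign_of_neg h4, Real.sign_of_neg (mul_neg_of_pos_of_neg ht h4)]
      · rw [Real.sign_of_pos h4, Real.sign_of_pos (mul_pos ht h4)]
    have h4 : hbK c φ η τ 1 x = wD c φ η (hbY x) *
        val τ (hbY x) (uD c (hbY x)) (uD c (hbY x)) := by
      rw [hb_K_hom c φ η τ 1 hx]
      unfold hbK
      rw [hb_y_self (hb_y_sph hx), one_smul]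
    rw [h4]
    refine h2.trans ?_
    rw [h3, mul_assoc]
  have hae : B =ᵐ[MeasureTheory.volume] (P ∪ N : Set (V d)) := by
    have h2 : MeasureTheory.volume {x : V d | x 0 = 0} = 0 := by
      rw [MeasureTheory.volume_pi]
      exact MeasureTheory.Measure.pi_hyperplane (α := fun _ : Fin (d + 1) => ℝ)
        (fun _ => MeasureTheory.volume) (0 : Fin (d + 1)) (0 : ℝ)
    have h3 : ∀ᵐ x : V d, x 0 ≠ 0 := by
      rw [MeasureTheory.ae_iff]
      simpa using h2
    filter_upwards [h3] with x hx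
    refine propext ?_
    constructor
    · intro h4
      rcases lt_or_gt_of_ne hx with h5 | h5
      · exact Or.inr ⟨h5, h4⟩
      · exact Or.inl ⟨h5, h4⟩
    · rintro (h4 | h4)
      · exact h4.2
      · exact h4.2
  have hdisj : Disjoint P N := by
    rw [Set.disjoint_left]
    intro x h2 h3
    exact lt_asymm h2.1 h3.1
  have eP : ∀ x ∈ P, pair τ (hD c φ η) ((√(x ⬝ᵥ x))⁻¹ • x) = 2 * hbK c φ η τ 1 x := by
    intro x hx
    rw [hval x hx.1.ne', Real.sign_of_pos hx.1, mul_one]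
  have eN : ∀ x ∈ N, pair τ (hD c φ η) ((√(x ⬝ᵥ x))⁻¹ • x) = -2 * hbK c φ η τ 1 x := by
    intro x hx
    rw [hval x hx.1.ne, Real.sign_of_neg hx.1]
    ring
  have jP : MeasureTheory.IntegrableOn
      (fun x : V d => pair τ (hD c φ η) ((√(x ⬝ᵥ x))⁻¹ • x)) P :=
    MeasureTheory.IntegrableOn.congr_fun (f := fun x => 2 * hbK c φ η τ 1 x) (iP1.const_mul 2)
      (fun x hx => (eP x hx).symm) hPm
  have jN : MeasureTheory.IntegrableOn
      (fun x : V d => pair τ (hD c φ η) ((√(x ⬝ᵥ x))⁻¹ • x)) N :=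
    MeasureTheory.IntegrableOn.congr_fun (f := fun x => -2 * hbK c φ η τ 1 x)
      (iN1.const_mul (-2)) (fun x hx => (eN x hx).symm) hNm
  have hflip : ∫ x in N, hbK c φ η τ 1 x = ∫ x in P, hbK c φ η τ (-1) x := by
    rw [← MeasureTheory.integral_indicator hNm, ← MeasureTheory.integral_indicator hPm,
      ← MeasureTheory.integral_neg_eq_self (N.indicator (hbK c φ η τ 1))]
    refine MeasureTheory.integral_congr_ae (Filter.Eventually.of_forall fun x => ?_)
    have h2 : -x ∈ N ↔ x ∈ P := by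
      show (-x) 0 < 0 ∧ (-x) ⬝ᵥ (-x) < 1 ↔ _
      rw [neg_dotProduct_neg, Pi.neg_apply, neg_lt_zero]
      exact Iff.rfl
    show N.indicator (hbK c φ η τ 1) (-x) = P.indicator (hbK c φ η τ (-1)) x
    by_cases h3 : x ∈ P
    · rw [Set.indicator_of_mem (h2.2 h3), Set.indicator_of_mem h3, hb_K_neg]
    · rw [Set.indicator_of_notMem (fun h4 => h3 (h2.1 h4)), Set.indicator_of_notMem h3]
  show ∫ x in B, pair τ (hD c φ η) ((√(x ⬝ᵥ x))⁻¹ • x) = _
  rw [MeasureTheory.setIntegral_congr_set hae, MeasureTheory.setIntegral_union hdisj hNm jP jN,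
    MeasureTheory.setIntegral_congr_fun hPm eP, MeasureTheory.setIntegral_congr_fun hNm eN,
    MeasureTheory.integral_const_mul, MeasureTheory.integral_const_mul, hflip]
  have h2 : ∫ x in P, wD c φ η x * sg τ x (uD c x) =
      ∫ x in P, (hbK c φ η τ 1 x - hbK c φ η τ (-1) x) := by
    refine MeasureTheory.setIntegral_congr_fun hPm fun x _ => ?_
    show wD c φ η x * (val τ (hbY x) (uD c x) (uD c x) - val τ (-(hbY x)) (uD c x) (uD c x)) =
      wD c φ η x * val τ ((1 : ℝ) • hbY x) (uD c x) (uD c x) -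
        wD c φ η x * val τ ((-1 : ℝ) • hbY x) (uD c x) (uD c x)
    rw [one_smul, neg_smul, one_smul]
    ring
  rw [h2, MeasureTheory.integral_sub iP1 iP2]
  ring

end Pool.Agent.Work.MP_659252_gt.S
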