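import Pool.Agent.Work.MP_659252_gt.S.Bas

/-!
# The limit `η → 0`.  Size: M.

PROOF.  Dominated convergence (`MeasureTheory.tendsto_integral_filter_of_dominated_convergence`; `𝓝[>] 0` is countably generated) for `0 < η < 1/4`, say.
* Pointwise: if `x_0 ≤ 0` or `x_0 ≥ 1` then `KE = 0 = KZ` (`dil ⬝ dil ≥ x_0²`).  If `0 < x_0 < 1` then for small `η` the point is in the domain
  (`dil c η x ⬝ᵥ dil c η x = x_0² + η ∑ x_i² / c_i`), and everything is continuous at `η = 0` from the right: `dil c η x → x_0 e0`, its normalisation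
  tends to `e0` and lies on the sphere, `τ` is continuous within the sphere at `e0` and `-e0`, `uE c η x → 2 • uZ c x`, `sg τ e0 (2 • u) = 4 sg τ e0 u`,
  `φ` continuous; `√(e0 ⬝ᵥ e0) = 1`.
* Domination: if `KE ≠ 0` then `φ ≠ 0`, so `1 ≤ 2 rr x / (x_0² + η rr x) ≤ 2` (`hφ.supp`), so `rr x ≤ x_0² + η rr x`, `rr x ≤ (4/3) x_0² ≤ 2`, `0 < x_0 < 1`.
  Let `|τ_ij| ≤ C` on the (compact) sphere, `φ ≤ C'`.  `|sg τ z u| ≤ 2 C (∑ |u_i|)² ≤ 2 C (d + 1) (u ⬝ᵥ u)` for `z ≠ 0`, and for `u = uE`, `m = x_0² + η rr x`: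
  `u_0² = 4 η rr² x_0² / m² ≤ 4 rr` (as `η rr ≤ m`, `x_0² ≤ m`), `u_i² ≤ 4 c_i x_i²`, so `u ⬝ᵥ u ≤ 4 (1 + ∑ c_i) rr x ≤ 4 (1 + ∑ c_i) m`
  (`rr x ≤ m`) and `u ⬝ᵥ u / m ≤ 4 (1 + ∑ c_i)`.  So `|KE| ≤ K` times the indicator of the bounded set `{0 ≤ x_0 ≤ 1, |x_i| ≤ 2}`, an integrable function.
* Measurability of `KE` (for `0 < η`): indicator of an open set of a function continuous on it (there `x_0 > 0`, so `dil ≠ 0` and the normalisation is
  continuous with values in the sphere).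
-/

namespace Pool.Agent.Work.MP_659252_gt.S

open Pool.Agent.Work.MP_659252_gt.Z (V Ten val Tan InT)
open Filter Topology

variable {d : ℕ}

/-- the direction of `x` -/
private noncomputable def lmY (x : V d) : V d := (√(x ⬝ᵥ x))⁻¹ • x

/-- the integrand -/
private noncomputable def lmF (τ : Ten d) (c : V d) (φ : ℝ → ℝ) (η : ℝ) (x : V d) : ℝ :=
  φ (2 * rr x / (x 0 ^ 2 + η * rr x)) / (x 0 ^ 2 + η * rr x) * sg τ (dil c η x) (uE c η x)

private theorem lm_dot_pos {x : V d} (hx : x ≠ 0) : 0 < x ⬝ᵥ x := by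
  have h0 : 0 ≤ x ⬝ᵥ x := Finset.sum_nonneg fun i _ => mul_self_nonneg (x i)
  rcases h0.lt_or_eq with h | h
  · exact h
  · exact absurd (dotProduct_self_eq_zero.1 h.symm) hx

private theorem lm_y_sph {x : V d} (hx : x ≠ 0) : lmY x ⬝ᵥ lmY x = 1 := by
  unfold lmY
  rw [smul_dotProduct, dotProduct_smul, smul_eq_mul, smul_eq_mul, ← mul_assoc, ← mul_inv,
    Real.mul_self_sqrt (lm_dot_pos hx).le, inv_mul_cancel₀ (lm_dot_pos hx).ne']

private theorem lm_y_neg_sph {x : V d} (hx : x ≠ 0) : (-lmY x) ⬝ᵥ (-lmY x) = 1 := by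
  rw [neg_dotProduct_neg, lm_y_sph hx]

private theorem lm_cont_dot : Continuous fun x : V d => x ⬝ᵥ x := by
  show Continuous fun x : V d => ∑ i, x i * x i
  fun_prop

private theorem lm_cont_y : ContinuousOn (lmY : V d → V d) {0}ᶜ := by
  have h1 : Continuous fun x : V d => √(x ⬝ᵥ x) := Real.continuous_sqrt.comp lm_cont_dot
  exact (h1.continuousOn.inv₀ fun x hx => (Real.sqrt_pos.2 (lm_dot_pos hx)).ne').smul continuousOn_id

private theorem lm_val_cont {τ : Ten d} {A : Set (V d × V d)} {z : V d × V d → V d}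
    (hz : ContinuousOn (fun p => τ (z p)) A) :
    ContinuousOn (fun p : V d × V d => val τ (z p) p.2 p.2) A := by
  unfold val
  refine continuousOn_finsetSum _ fun i _ => continuousOn_finsetSum _ fun j _ => ?_
  refine ContinuousOn.mul (continuousOn_pi.1 (continuousOn_pi.1 hz i) j) ?_
  fun_prop

private theorem lm_sg_cont (τ : Ten d) (hτ : ContinuousOn τ {x | x ⬝ᵥ x = 1}) :
    ContinuousOn (fun p : V d × V d => sg τ p.1 p.2) ({0}ᶜ ×ˢ Set.univ) := by
  have h1 : ContinuousOn (fun p : V d × V d => lmY p.1) ({0}ᶜ ×ˢ Set.univ) :=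
    lm_cont_y.comp continuousOn_fst fun p hp => hp.1
  have h2 : ContinuousOn (fun p : V d × V d => τ (lmY p.1)) ({0}ᶜ ×ˢ Set.univ) :=
    hτ.comp h1 fun p hp => lm_y_sph hp.1
  have h3 : ContinuousOn (fun p : V d × V d => τ (-lmY p.1)) ({0}ᶜ ×ˢ Set.univ) :=
    hτ.comp h1.neg fun p hp => lm_y_neg_sph hp.1
  exact (lm_val_cont h2).sub (lm_val_cont h3)

private theorem lm_cont_rr : Continuous (rr : V d → ℝ) := by
  unfold rr
  fun_prop

private theorem lm_rr_nonneg (x : V d) : 0 ≤ rr x := Finset.sum_nonneg fun i _ => sq_nonneg _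

private theorem lm_den_pos {η : ℝ} (hη : 0 ≤ η) {x : V d} (hx : 0 < x 0) :
    0 < x 0 ^ 2 + η * rr x :=
  add_pos_of_pos_of_nonneg (pow_pos hx 2) (mul_nonneg hη (lm_rr_nonneg x))

private theorem lm_dil_ne {c : V d} {η : ℝ} {x : V d} (hx : 0 < x 0) : dil c η x ≠ 0 := by
  intro h
  have h1 : dil c η x 0 = 0 := by rw [h]; rfl
  have h2 : dil c η x 0 = x 0 := if_pos rfl
  rw [h2] at h1
  exact hx.ne' h1

private theorem lm_cont_dil (c : V d) : Continuous fun p : ℝ × V d => dil c p.1 p.2 := by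
  refine continuous_pi fun i => ?_
  unfold dil
  by_cases hi : i = 0
  · simp only [hi, if_true]
    fun_prop
  · simp only [hi, if_false]
    fun_prop

private theorem lm_cont_uE (c : V d) :
    ContinuousOn (fun p : ℝ × V d => uE c p.1 p.2) {p | 0 ≤ p.1 ∧ 0 < p.2 0} := by
  have hr := (lm_cont_rr (d := d)).comp (continuous_snd (X := ℝ) (Y := V d))
  have hr' : Continuous fun p : ℝ × V d => rr p.2 := hr
  refine continuousOn_pi.2 fun i => ?_
  unfold uE
  by_cases hi : i = 0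
  · simp only [hi, if_true]
    refine ContinuousOn.mul ?_ (by fun_prop)
    refine ContinuousOn.neg ?_
    refine ContinuousOn.div ?_ ?_ fun p hp => (lm_den_pos hp.1 hp.2).ne'
    · exact (((continuous_const.mul (Real.continuous_sqrt.comp continuous_fst)).mul hr')).continuousOn
    · exact (Continuous.add (by fun_prop) (continuous_fst.mul hr')).continuousOn
  · simp only [hi, if_false]
    refine ContinuousOn.mul ?_ (by fun_prop)
    refine ContinuousOn.div (by fun_prop) ?_ fun p hp => (lm_den_pos hp.1 hp.2).ne'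
    exact (Continuous.add (by fun_prop) (continuous_fst.mul hr')).continuousOn

private theorem lm_F_cont (τ : Ten d) (hτ : ContinuousOn τ {x | x ⬝ᵥ x = 1}) (c : V d)
    (φ : ℝ → ℝ) (hφ : Cut φ) :
    ContinuousOn (fun p : ℝ × V d => lmF τ c φ p.1 p.2) {p | 0 ≤ p.1 ∧ 0 < p.2 0} := by
  have hr := (lm_cont_rr (d := d)).comp (continuous_snd (X := ℝ) (Y := V d))
  have hr' : Continuous fun p : ℝ × V d => rr p.2 := hr
  have hden : ContinuousOn (fun p : ℝ × V d => p.2 0 ^ 2 + p.1 * rr p.2)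
      {p | 0 ≤ p.1 ∧ 0 < p.2 0} :=
    (Continuous.add (by fun_prop) (continuous_fst.mul hr')).continuousOn
  unfold lmF
  refine ContinuousOn.mul (ContinuousOn.div ?_ hden fun p hp => (lm_den_pos hp.1 hp.2).ne') ?_
  · exact hφ.smooth.continuous.comp_continuousOn
      (ContinuousOn.div (continuous_const.mul hr').continuousOn hden
        fun p hp => (lm_den_pos hp.1 hp.2).ne')
  · exact (lm_sg_cont τ hτ).comp (f := fun p : ℝ × V d => (dil c p.1 p.2, uE c p.1 p.2))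
      ((lm_cont_dil c).continuousOn.prodMk (lm_cont_uE c)) fun p hp => ⟨lm_dil_ne hp.2, trivial⟩

private theorem lm_dil_zero (c x : V d) : dil c 0 x = x 0 • (e0 : V d) := by
  funext i
  show (if i = 0 then x 0 else √(0 / c i) * x i) = x 0 * (if i = 0 then 1 else 0)
  by_cases hi : i = 0
  · rw [if_pos hi, if_pos hi, mul_one]
  · rw [if_neg hi, if_neg hi, zero_div, Real.sqrt_zero, zero_mul, mul_zero]

private theorem lm_uE_zero (c : V d) {x : V d} (hx : 0 < x 0) : uE c 0 x = (2 : ℝ) • uZ c x := by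
  funext i
  show (if i = 0 then -(2 * √0 * rr x / (x 0 ^ 2 + 0 * rr x)) * x 0
    else 2 * x 0 ^ 2 / (x 0 ^ 2 + 0 * rr x) * (√(c i) * x i)) =
      2 * (if i = 0 then 0 else √(c i) * x i)
  have h2 : x 0 ^ 2 ≠ 0 := (pow_pos hx 2).ne'
  by_cases hi : i = 0
  · rw [if_pos hi, if_pos hi, Real.sqrt_zero]
    ring
  · rw [if_neg hi, if_neg hi, zero_mul, add_zero, mul_div_assoc, div_self h2, mul_one]

private theorem lm_e0_sph : (e0 : V d) ⬝ᵥ e0 = 1 := by
  show ∑ i, (if i = 0 then (1 : ℝ) else 0) * (if i = 0 then 1 else 0) = 1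
  simp

private theorem lm_y_smul {t : ℝ} (ht : 0 < t) : lmY (t • (e0 : V d)) = e0 := by
  unfold lmY
  rw [smul_dotProduct, dotProduct_smul, lm_e0_sph, smul_eq_mul, smul_eq_mul, mul_one,
    Real.sqrt_mul_self ht.le, smul_smul, inv_mul_cancel₀ ht.ne', one_smul]

private theorem lm_val_smul (τ : Ten d) (z u : V d) (t : ℝ) :
    val τ z (t • u) (t • u) = t ^ 2 * val τ z u u := by
  unfold val
  rw [Finset.mul_sum]
  refine Finset.sum_congr rfl fun i _ => ?_
  rw [Finset.mul_sum]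
  refine Finset.sum_congr rfl fun j _ => ?_
  show τ z i j * (t * u i * (t * u j)) = _
  ring

private theorem lm_F_zero (τ : Ten d) (c : V d) (φ : ℝ → ℝ) {x : V d} (hx : 0 < x 0) :
    lmF τ c φ 0 x = φ (2 * rr x / x 0 ^ 2) / x 0 ^ 2 * (4 * sg τ e0 (uZ c x)) := by
  unfold lmF
  rw [zero_mul, add_zero, lm_dil_zero, lm_uE_zero c hx]
  congr 1
  show val τ (lmY (x 0 • (e0 : V d))) _ _ - val τ (-lmY (x 0 • (e0 : V d))) _ _ =
    4 * (val τ (lmY (e0 : V d)) _ _ - val τ (-lmY (e0 : V d)) _ _)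
  have h1 : lmY (e0 : V d) = e0 := by
    have h2 := lm_y_smul (d := d) one_pos
    rwa [one_smul] at h2
  rw [lm_y_smul hx, h1, lm_val_smul, lm_val_smul]
  ring

private theorem lm_sph_compact : IsCompact {x : V d | x ⬝ᵥ x = 1} := by
  refine Metric.isCompact_of_isClosed_isBounded (isClosed_eq lm_cont_dot continuous_const) ?_
  refine (Metric.isBounded_closedBall (x := (0 : V d)) (r := 1)).subset fun x hx => ?_
  rw [mem_closedBall_zero_iff, pi_norm_le_iff_of_nonneg zero_le_one]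
  intro i
  have h1 : x i * x i ≤ x ⬝ᵥ x :=
    Finset.single_le_sum (f := fun j => x j * x j) (fun j _ => mul_self_nonneg (x j))
      (Finset.mem_univ i)
  change x ⬝ᵥ x = 1 at hx
  rw [hx] at h1
  rw [Real.norm_eq_abs]
  exact abs_le_one_iff_mul_self_le_one.2 h1

private theorem lm_tau_bound (τ : Ten d) (hτ : ContinuousOn τ {x | x ⬝ᵥ x = 1}) :
    ∃ C : ℝ, 0 ≤ C ∧ ∀ x : V d, x ⬝ᵥ x = 1 → ∀ i j, |τ x i j| ≤ C := by
  obtain ⟨C, hC⟩ := lm_sph_compact.exists_bound_of_continuousOn hτ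
  refine ⟨max C 0, le_max_right _ _, fun x hx i j => ?_⟩
  have h1 : |τ x i j| ≤ ‖τ x‖ := by
    rw [← Real.norm_eq_abs]
    exact (norm_le_pi_norm (τ x i) j).trans (norm_le_pi_norm (τ x) i)
  exact (h1.trans (hC x hx)).trans (le_max_left _ _)

private theorem lm_val_bound {τ : Ten d} {C : ℝ} (hC0 : 0 ≤ C)
    (hC : ∀ x : V d, x ⬝ᵥ x = 1 → ∀ i j, |τ x i j| ≤ C) {z : V d} (hz : z ⬝ᵥ z = 1) (u : V d) :
    |val τ z u u| ≤ C * ((d + 1) * ∑ i, u i ^ 2) := by
  have h1 : |val τ z u u| ≤ ∑ i, ∑ j, C * ((u i ^ 2 + u j ^ 2) / 2) := by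
    unfold val
    refine (Finset.abs_sum_le_sum_abs _ _).trans (Finset.sum_le_sum fun i _ => ?_)
    refine (Finset.abs_sum_le_sum_abs _ _).trans (Finset.sum_le_sum fun j _ => ?_)
    rw [abs_mul]
    refine mul_le_mul (hC z hz i j) ?_ (abs_nonneg _) hC0
    rw [abs_le]
    constructor
    · nlinarith [sq_nonneg (u i + u j)]
    · nlinarith [sq_nonneg (u i - u j)]
  refine h1.trans (le_of_eq ?_)
  have h2 : ∀ i : Fin (d + 1), ∑ j : Fin (d + 1), C * ((u i ^ 2 + u j ^ 2) / 2) =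
      C / 2 * ((d + 1) * u i ^ 2) + C / 2 * ∑ j, u j ^ 2 := by
    intro i
    rw [← Finset.mul_sum]
    have h3 : ∑ j : Fin (d + 1), (u i ^ 2 + u j ^ 2) / 2 =
        (((d : ℝ) + 1) * u i ^ 2 + ∑ j, u j ^ 2) / 2 := by
      rw [← Finset.sum_div, Finset.sum_add_distrib, Finset.sum_const, Finset.card_univ,
        Fintype.card_fin, nsmul_eq_mul]
      push_cast
      ring
    rw [h3]
    ring
  rw [Finset.sum_congr rfl fun i _ => h2 i, Finset.sum_add_distrib, Finset.sum_const,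
    Finset.card_univ, Fintype.card_fin, nsmul_eq_mul, ← Finset.mul_sum, ← Finset.mul_sum]
  push_cast
  ring

private theorem lm_sg_bound {τ : Ten d} {C : ℝ} (hC0 : 0 ≤ C)
    (hC : ∀ x : V d, x ⬝ᵥ x = 1 → ∀ i j, |τ x i j| ≤ C) {z : V d} (hz : z ≠ 0) (u : V d) :
    |sg τ z u| ≤ 2 * (C * ((d + 1) * ∑ i, u i ^ 2)) := by
  have h1 := lm_val_bound hC0 hC (lm_y_sph hz) u
  have h2 := lm_val_bound hC0 hC (lm_y_neg_sph hz) u
  have h3 : |sg τ z u| ≤ |val τ (lmY z) u u| + |val τ (-lmY z) u u| := abs_sub _ _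
  linarith

private theorem lm_uE_bound (c : V d) (hc : ∀ i, 0 < c i) {η : ℝ} (hη : 0 ≤ η) {x : V d}
    (hx : 0 < x 0) : ∑ i, uE c η x i ^ 2 ≤ 4 * (1 + ∑ i, c i) * rr x := by
  set m := x 0 ^ 2 + η * rr x with hm
  have hmpos : 0 < m := lm_den_pos hη hx
  have hr := lm_rr_nonneg x
  have hηr : 0 ≤ η * rr x := mul_nonneg hη hr
  have hx2 : 0 ≤ x 0 ^ 2 := sq_nonneg _
  rw [Fin.sum_univ_succ]
  have h0 : uE c η x 0 ^ 2 ≤ 4 * rr x := by
    have e1 : uE c η x 0 = -(2 * √η * rr x / m) * x 0 := if_pos rfl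
    have e2 : uE c η x 0 ^ 2 = 4 * rr x * ((η * rr x / m) * (x 0 ^ 2 / m)) := by
      rw [e1]
      have hs : √η ^ 2 = η := Real.sq_sqrt hη
      calc (-(2 * √η * rr x / m) * x 0) ^ 2 = 4 * √η ^ 2 * rr x ^ 2 * x 0 ^ 2 / m ^ 2 := by
            field_simp
            ring
        _ = 4 * rr x * ((η * rr x / m) * (x 0 ^ 2 / m)) := by
            rw [hs]
            field_simp
    have e3 : η * rr x / m ≤ 1 := (div_le_one hmpos).2 (by rw [hm]; linarith)
    have e4 : x 0 ^ 2 / m ≤ 1 := (div_le_one hmpos).2 (by rw [hm]; linarith)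
    have e5 : 0 ≤ x 0 ^ 2 / m := div_nonneg hx2 hmpos.le
    have e6 : (η * rr x / m) * (x 0 ^ 2 / m) ≤ 1 := mul_le_one₀ e3 e5 e4
    rw [e2]
    calc 4 * rr x * ((η * rr x / m) * (x 0 ^ 2 / m)) ≤ 4 * rr x * 1 :=
          mul_le_mul_of_nonneg_left e6 (by linarith)
      _ = 4 * rr x := mul_one _
  have h1 : ∀ i : Fin d, uE c η x i.succ ^ 2 ≤ 4 * (∑ j, c j) * x i.succ ^ 2 := by
    intro i
    have e1 : uE c η x i.succ = 2 * x 0 ^ 2 / m * (√(c i.succ) * x i.succ) :=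
      if_neg (Fin.succ_ne_zero i)
    have e2 : uE c η x i.succ ^ 2 = 4 * (x 0 ^ 2 / m) ^ 2 * (c i.succ * x i.succ ^ 2) := by
      rw [e1]
      have hs : √(c i.succ) ^ 2 = c i.succ := Real.sq_sqrt (hc _).le
      calc (2 * x 0 ^ 2 / m * (√(c i.succ) * x i.succ)) ^ 2 =
            4 * (x 0 ^ 2 / m) ^ 2 * (√(c i.succ) ^ 2 * x i.succ ^ 2) := by ring
        _ = _ := by rw [hs]
    have e4 : x 0 ^ 2 / m ≤ 1 := (div_le_one hmpos).2 (by rw [hm]; linarith)
    have e5 : 0 ≤ x 0 ^ 2 / m := div_nonneg hx2 hmpos.le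
    have e6 : (x 0 ^ 2 / m) ^ 2 ≤ 1 := pow_le_one₀ e5 e4
    have e7 : c i.succ ≤ ∑ j, c j :=
      Finset.single_le_sum (fun j _ => (hc j).le) (Finset.mem_univ i.succ)
    have e8 : c i.succ * x i.succ ^ 2 ≤ (∑ j, c j) * x i.succ ^ 2 :=
      mul_le_mul_of_nonneg_right e7 (sq_nonneg _)
    have e9 : 0 ≤ c i.succ * x i.succ ^ 2 := mul_nonneg (hc _).le (sq_nonneg _)
    rw [e2]
    calc 4 * (x 0 ^ 2 / m) ^ 2 * (c i.succ * x i.succ ^ 2) ≤ 4 * 1 * (c i.succ * x i.succ ^ 2) :=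
          mul_le_mul_of_nonneg_right (by linarith) e9
      _ ≤ 4 * (∑ j, c j) * x i.succ ^ 2 := by linarith
  have h2 : ∑ i : Fin d, uE c η x i.succ ^ 2 ≤ 4 * (∑ j, c j) * rr x := by
    unfold rr
    rw [Finset.mul_sum]
    exact Finset.sum_le_sum fun i _ => h1 i
  calc uE c η x 0 ^ 2 + ∑ i : Fin d, uE c η x i.succ ^ 2 ≤ 4 * rr x + 4 * (∑ j, c j) * rr x :=
        add_le_add h0 h2
    _ = 4 * (1 + ∑ i, c i) * rr x := by ring

private theorem lm_dil_dot (c : V d) {η : ℝ} (x : V d) : x 0 ^ 2 ≤ dil c η x ⬝ᵥ dil c η x := by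
  have h1 : dil c η x 0 * dil c η x 0 ≤ dil c η x ⬝ᵥ dil c η x :=
    Finset.single_le_sum (f := fun j => dil c η x j * dil c η x j)
      (fun j _ => mul_self_nonneg _) (Finset.mem_univ 0)
  have h2 : dil c η x 0 = x 0 := if_pos rfl
  rw [h2] at h1
  rw [sq]
  exact h1

private theorem lm_bound (c : V d) (hc : ∀ i, 0 < c i) (φ : ℝ → ℝ) (hφ : Cut φ) (τ : Ten d)
    (hτ : ContinuousOn τ {x | x ⬝ᵥ x = 1}) :
    ∃ K : ℝ, 0 ≤ K ∧ ∀ η : ℝ, 0 < η → η < 1 / 4 → ∀ x : V d,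
      |KE τ c φ η x| ≤ (Metric.closedBall (0 : V d) 2).indicator (fun _ => K) x := by
  obtain ⟨C, hC0, hC⟩ := lm_tau_bound τ hτ
  obtain ⟨C1, hC1⟩ := (isCompact_Icc (a := (1 : ℝ)) (b := 2)).exists_bound_of_continuousOn
    hφ.smooth.continuous.continuousOn
  have hsum : 0 ≤ ∑ i, c i := Finset.sum_nonneg fun i _ => (hc i).le
  have hC10 : 0 ≤ |C1| := abs_nonneg _
  set K := |C1| * (2 * (C * ((d + 1) * (4 * (1 + ∑ i, c i))))) with hK
  have hK0 : 0 ≤ K := by positivity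
  refine ⟨K, hK0, fun η h0 h1 x => ?_⟩
  have hind : 0 ≤ (Metric.closedBall (0 : V d) 2).indicator (fun _ => K) x :=
    Set.indicator_nonneg (fun _ _ => hK0) x
  by_cases hx : x ∈ {x : V d | 0 < x 0 ∧ dil c η x ⬝ᵥ dil c η x < 1}
  · have e1 : KE τ c φ η x = lmF τ c φ η x := Set.indicator_of_mem hx _
    rw [e1]
    have hx0 : 0 < x 0 := hx.1
    have hx1 : x 0 ^ 2 < 1 := (lm_dil_dot c x).trans_lt hx.2
    have hr := lm_rr_nonneg x
    have hm := lm_den_pos h0.le hx0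
    by_cases hs : 2 * rr x / (x 0 ^ 2 + η * rr x) ∈ Set.Icc (1 : ℝ) 2
    · have h2 : rr x ≤ x 0 ^ 2 + η * rr x := by
        have h3 := (div_le_iff₀ hm).1 hs.2
        linarith
      have h3 : rr x ≤ 4 / 3 := by nlinarith
      have hmem : x ∈ Metric.closedBall (0 : V d) 2 := by
        rw [mem_closedBall_zero_iff, pi_norm_le_iff_of_nonneg zero_le_two]
        intro i
        rw [Real.norm_eq_abs]
        refine abs_le_of_sq_le_sq ?_ zero_le_two
        refine Fin.cases ?_ (fun j => ?_) i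
        · nlinarith
        · have h4 : x j.succ ^ 2 ≤ rr x :=
            Finset.single_le_sum (f := fun j : Fin d => x j.succ ^ 2) (fun j _ => sq_nonneg _)
              (Finset.mem_univ j)
          nlinarith
      rw [Set.indicator_of_mem hmem]
      have h4 : |φ (2 * rr x / (x 0 ^ 2 + η * rr x))| ≤ |C1| := by
        rw [← Real.norm_eq_abs]
        exact (hC1 _ hs).trans (le_abs_self _)
      have h5 := lm_sg_bound hC0 hC (lm_dil_ne (c := c) (η := η) hx0) (uE c η x)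
      have h6 := lm_uE_bound c hc h0.le hx0
      have h7 : ∑ i, uE c η x i ^ 2 ≤ 4 * (1 + ∑ i, c i) * (x 0 ^ 2 + η * rr x) :=
        h6.trans (mul_le_mul_of_nonneg_left h2 (by positivity))
      have h8 : |sg τ (dil c η x) (uE c η x)| ≤
          2 * (C * ((d + 1) * (4 * (1 + ∑ i, c i) * (x 0 ^ 2 + η * rr x)))) :=
        h5.trans (mul_le_mul_of_nonneg_left (mul_le_mul_of_nonneg_left
          (mul_le_mul_of_nonneg_left h7 (by positivity)) hC0) zero_le_two)
      unfold lmF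
      rw [abs_mul, abs_div, abs_of_pos hm]
      calc |φ (2 * rr x / (x 0 ^ 2 + η * rr x))| / (x 0 ^ 2 + η * rr x) *
            |sg τ (dil c η x) (uE c η x)| ≤
          |C1| / (x 0 ^ 2 + η * rr x) *
            (2 * (C * ((d + 1) * (4 * (1 + ∑ i, c i) * (x 0 ^ 2 + η * rr x))))) :=
            mul_le_mul (div_le_div_of_nonneg_right h4 hm.le) h8 (abs_nonneg _)
              (div_nonneg hC10 hm.le)
        _ = K := by
            rw [hK]
            field_simp
    · have h2 : lmF τ c φ η x = 0 := by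
        unfold lmF
        rw [hφ.supp _ hs, zero_div, zero_mul]
      rw [h2, abs_zero]
      exact hind
  · have e1 : KE τ c φ η x = 0 := Set.indicator_of_notMem hx _
    rw [e1, abs_zero]
    exact hind

private theorem lm_meas (c : V d) (φ : ℝ → ℝ) (hφ : Cut φ) (τ : Ten d)
    (hτ : ContinuousOn τ {x | x ⬝ᵥ x = 1}) {η : ℝ} (h0 : 0 < η) :
    MeasureTheory.AEStronglyMeasurable (KE τ c φ η) MeasureTheory.volume := by
  have hd : Continuous fun x : V d => dil c η x :=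
    (lm_cont_dil c).comp (continuous_const.prodMk continuous_id)
  have hU : IsOpen {x : V d | 0 < x 0 ∧ dil c η x ⬝ᵥ dil c η x < 1} :=
    (isOpen_lt continuous_const (continuous_apply 0)).inter
      (isOpen_lt (lm_cont_dot.comp hd) continuous_const)
  have h1 : ContinuousOn (lmF τ c φ η) {x : V d | 0 < x 0 ∧ dil c η x ⬝ᵥ dil c η x < 1} :=
    (lm_F_cont τ hτ c φ hφ).comp (f := fun x : V d => (η, x))
      (continuous_const.prodMk continuous_id).continuousOn fun x hx => ⟨h0.le, hx.1⟩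
  have h2 := h1.aestronglyMeasurable (μ := MeasureTheory.volume) hU.measurableSet
  exact (aestronglyMeasurable_indicator_iff hU.measurableSet).2 h2

private theorem lm_point (c : V d) (φ : ℝ → ℝ) (hφ : Cut φ) (τ : Ten d)
    (hτ : ContinuousOn τ {x | x ⬝ᵥ x = 1}) (x : V d) :
    Tendsto (fun η => KE τ c φ η x) (𝓝[>] 0) (𝓝 (KZ τ c φ x)) := by
  by_cases hx : 0 < x 0 ∧ x 0 < 1
  · have hc1 : Continuous fun η : ℝ => dil c η x ⬝ᵥ dil c η x :=
      lm_cont_dot.comp ((lm_cont_dil c).comp (continuous_id.prodMk continuous_const))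
    have h1 : dil c 0 x ⬝ᵥ dil c 0 x < 1 := by
      rw [lm_dil_zero, smul_dotProduct, dotProduct_smul, lm_e0_sph, smul_eq_mul, smul_eq_mul,
        mul_one]
      nlinarith [hx.1, hx.2]
    have h2 : ∀ᶠ η in 𝓝[>] (0 : ℝ), dil c η x ⬝ᵥ dil c η x < 1 :=
      (hc1.continuousAt.eventually_lt continuousAt_const h1).filter_mono nhdsWithin_le_nhds
    have h3 : Tendsto (fun η => lmF τ c φ η x) (𝓝[>] 0) (𝓝 (lmF τ c φ 0 x)) := by
      have h4 : ContinuousOn (fun η : ℝ => lmF τ c φ η x) (Set.Ici 0) :=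
        (lm_F_cont τ hτ c φ hφ).comp (f := fun η : ℝ => (η, x))
          (continuous_id.prodMk continuous_const).continuousOn fun η hη => ⟨hη, hx.1⟩
      exact (h4 0 (Set.mem_Ici.2 le_rfl)).mono_left
        (nhdsWithin_mono 0 Set.Ioi_subset_Ici_self)
    have h5 : KZ τ c φ x = lmF τ c φ 0 x := by
      rw [lm_F_zero τ c φ hx.1]
      exact Set.indicator_of_mem (s := {x : V d | 0 < x 0 ∧ x 0 < 1}) hx _
    rw [h5]
    refine h3.congr' ?_
    filter_upwards [h2] with η hη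
    exact (Set.indicator_of_mem (s := {x : V d | 0 < x 0 ∧ dil c η x ⬝ᵥ dil c η x < 1})
      ⟨hx.1, hη⟩ _).symm
  · have h5 : KZ τ c φ x = 0 :=
      Set.indicator_of_notMem (s := {x : V d | 0 < x 0 ∧ x 0 < 1}) hx _
    rw [h5]
    have h6 : ∀ η : ℝ, KE τ c φ η x = 0 := by
      intro η
      refine Set.indicator_of_notMem
        (s := {x : V d | 0 < x 0 ∧ dil c η x ⬝ᵥ dil c η x < 1}) (fun h7 => hx ⟨h7.1, ?_⟩) _
      have h8 : x 0 ^ 2 < 1 := (lm_dil_dot c x).trans_lt h7.2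
      nlinarith [h7.1]
    simp only [h6]
    exact tendsto_const_nhds

theorem lim_KE (c : V d) (hc : ∀ i, 0 < c i) (φ : ℝ → ℝ) (hφ : Cut φ) (τ : Ten d)
    (hτ : ContinuousOn τ {x | x ⬝ᵥ x = 1}) :
    Tendsto (fun η => ∫ x, KE τ c φ η x) (𝓝[>] 0) (𝓝 (∫ x, KZ τ c φ x)) := by
  obtain ⟨K, hK0, hK⟩ := lm_bound c hc φ hφ τ hτ
  have hev : ∀ᶠ η : ℝ in 𝓝[>] 0, 0 < η ∧ η < 1 / 4 := by
    have h1 : ∀ᶠ η : ℝ in 𝓝[>] 0, η < 1 / 4 :=
      (eventually_lt_nhds (by norm_num : (0 : ℝ) < 1 / 4)).filter_mono nhdsWithin_le_nhds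
    filter_upwards [self_mem_nhdsWithin, h1] with η h2 h3
    exact ⟨h2, h3⟩
  refine MeasureTheory.tendsto_integral_filter_of_dominated_convergence
    ((Metric.closedBall (0 : V d) 2).indicator (fun _ => K)) ?_ ?_ ?_ ?_
  · filter_upwards [hev] with η hη
    exact lm_meas c φ hφ τ hτ hη.1
  · filter_upwards [hev] with η hη
    refine Filter.Eventually.of_forall fun x => ?_
    rw [Real.norm_eq_abs]
    exact hK η hη.1 hη.2 x
  · rw [MeasureTheory.integrable_indicator_iff Metric.isClosed_closedBall.measurableSet]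
    exact MeasureTheory.integrableOn_const (isCompact_closedBall _ _).measure_lt_top.ne
  · exact Filter.Eventually.of_forall fun x => lm_point c φ hφ τ hτ x

end Pool.Agent.Work.MP_659252_gt.S
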