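import Pool.Agent.Work.MP_659252_gt.S.Bas

/-!
# The moments.  Size: M.

Let `f x = φ (2 rr x / x_0²) / x_0²` on `U = {0 < x_0 < 1}`.
PROOF.  Integrability: where `f x x_i x_j ≠ 0`, `1 ≤ 2 rr x / x_0² ≤ 2`, so `rr x ≤ x_0² < 1` and `|f x x_i x_j| ≤ (sup φ) rr x / x_0² ≤ sup φ`; the set
`{0 < x_0 < 1, rr x ≤ 1}` is bounded, the function is continuous on the open set `U` (so measurable).
`i ≠ j`: the reflection `x_{i+1} ↦ -x_{i+1}` preserves the measure, `U` and `f`, and changes the sign of `x_i x_j`: the integral equals minus itself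
(`MeasurePreserving.setIntegral_preimage_emb`, the measurable equivalence `x ↦ Function.update x i.succ (-x i.succ)`; or `Real.smul_map_diagonal_volume_pi`).
`i = j`: the permutation of the coordinates `i.succ`, `j.succ` (`MeasureTheory.volume_preserving_piCongrLeft` or `volume_measurePreserving_arrowCongr`;
`Equiv.swap`) preserves the measure, `U` and `f` (`rr` is symmetric), so the diagonal moments are all equal.  They are positive: the integrand is `≥ 0` on `U`,
and positive on the nonempty open set `{0 < x_0 < 1, 1 < 2 rr x / x_0² < 2, x_i ≠ 0}` (contains `x_0 = 1/2`, `x_j = t` for all `j ≥ 1` with `8 d t² = 3/2`), which has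
positive measure (`IsOpen.measure_pos`): `MeasureTheory.setIntegral_pos_iff_support_of_nonneg_ae` or `integral_pos_iff_support_of_nonneg_ae`.
If `d = 0` take `M = 1` (there is no `i`).
-/

namespace Pool.Agent.Work.MP_659252_gt.S

open Pool.Agent.Work.MP_659252_gt.Z (V Ten val Tan InT)

variable {d : ℕ}

private theorem cont_rr : Continuous (fun x : V d => rr x) := by
  unfold rr
  fun_prop

private theorem sq_le_rr (x : V d) (i : Fin d) : x i.succ ^ 2 ≤ rr x := by
  unfold rr
  exact Finset.single_le_sum (f := fun i : Fin d => x i.succ ^ 2) (fun i _ => sq_nonneg _) (Finset.mem_univ i)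

private theorem abs_le_rr (x : V d) (i j : Fin d) : |x i.succ * x j.succ| ≤ rr x := by
  have h1 := sq_le_rr x i
  have h2 := sq_le_rr x j
  rw [abs_le]
  constructor
  · nlinarith [sq_nonneg (x i.succ + x j.succ)]
  · nlinarith [sq_nonneg (x i.succ - x j.succ)]

private theorem meas_U : MeasurableSet {x : V d | 0 < x 0 ∧ x 0 < 1} := by
  apply MeasurableSet.inter
  · exact measurableSet_lt measurable_const (measurable_pi_apply 0)
  · exact measurableSet_lt (measurable_pi_apply 0) measurable_const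

private theorem cut_bdd (φ : ℝ → ℝ) (hφ : Cut φ) : ∃ C : ℝ, 0 ≤ C ∧ ∀ s, φ s ≤ C := by
  obtain ⟨C, hC⟩ := (isCompact_Icc (a := (1 : ℝ)) (b := 2)).exists_bound_of_continuousOn
    (f := φ) hφ.smooth.continuous.continuousOn
  refine ⟨max C 0, le_max_right _ _, fun s => ?_⟩
  by_cases hs : s ∈ Set.Icc (1 : ℝ) 2
  · exact le_trans (le_trans (le_abs_self _) (hC s hs)) (le_max_left _ _)
  · rw [hφ.supp s hs]
    exact le_max_right _ _

private theorem gm_meas (φ : ℝ → ℝ) (hφ : Cut φ) (i j : Fin d) :
    Measurable (fun x : V d => φ (2 * rr x / x 0 ^ 2) / x 0 ^ 2 * (x i.succ * x j.succ)) := by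
  have h1 : Measurable (fun x : V d => rr x) := cont_rr.measurable
  have h2 : Measurable φ := hφ.smooth.continuous.measurable
  have h3 : Measurable (fun x : V d => φ (2 * rr x / x 0 ^ 2)) :=
    h2.comp ((measurable_const.mul h1).div ((measurable_pi_apply 0).pow_const 2))
  exact (h3.div ((measurable_pi_apply 0).pow_const 2)).mul
    ((measurable_pi_apply _).mul (measurable_pi_apply _))

theorem mom_int (φ : ℝ → ℝ) (hφ : Cut φ) (i j : Fin d) :
    MeasureTheory.IntegrableOn (fun x : V d => φ (2 * rr x / x 0 ^ 2) / x 0 ^ 2 * (x i.succ * x j.succ))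
      {x : V d | 0 < x 0 ∧ x 0 < 1} := by
  obtain ⟨C, hC0, hC⟩ := cut_bdd φ hφ
  have hK : MeasureTheory.IntegrableOn
      (fun x : V d => φ (2 * rr x / x 0 ^ 2) / x 0 ^ 2 * (x i.succ * x j.succ))
      ({x : V d | 0 < x 0 ∧ x 0 < 1} ∩ Set.Icc (fun _ => (-1 : ℝ)) (fun _ => 1)) := by
    apply MeasureTheory.Measure.integrableOn_of_bounded (M := C)
    · apply ne_of_lt
      exact lt_of_le_of_lt (MeasureTheory.measure_mono Set.inter_subset_right) isCompact_Icc.measure_lt_top
    · exact (gm_meas φ hφ i j).aestronglyMeasurable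
    · rw [MeasureTheory.ae_restrict_iff' (meas_U.inter measurableSet_Icc)]
      refine Filter.Eventually.of_forall (fun x hx => ?_)
      obtain ⟨⟨hx0, hx1⟩, -⟩ := hx
      have hsq : 0 < x 0 ^ 2 := by positivity
      rw [Real.norm_eq_abs, abs_mul, abs_div, abs_of_nonneg (hφ.nonneg _), abs_of_pos hsq]
      by_cases hs : 2 * rr x / x 0 ^ 2 ∈ Set.Icc (1 : ℝ) 2
      · have h2 := hs.2
        rw [div_le_iff₀ hsq] at h2
        have h3 := abs_le_rr x i j
        have h4 : |x i.succ * x j.succ| ≤ x 0 ^ 2 := by linarith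
        calc φ (2 * rr x / x 0 ^ 2) / x 0 ^ 2 * |x i.succ * x j.succ|
            ≤ C / x 0 ^ 2 * x 0 ^ 2 := by
              apply mul_le_mul _ h4 (abs_nonneg _) (by positivity)
              exact div_le_div_of_nonneg_right (hC _) hsq.le
          _ = C := by field_simp
      · rw [hφ.supp _ hs]
        simpa using hC0
  apply hK.of_forall_sdiff_eq_zero meas_U
  rintro x ⟨⟨hx0, hx1⟩, hx2⟩
  have hsq : 0 < x 0 ^ 2 := by positivity
  have h1 : 1 < rr x := by
    by_contra hcon
    push Not at hcon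
    apply hx2
    refine ⟨⟨hx0, hx1⟩, ?_⟩
    have habs : ∀ k, |x k| ≤ 1 := by
      intro k
      refine Fin.cases ?_ (fun m => ?_) k
      · rw [abs_of_pos hx0]
        exact hx1.le
      · have := sq_le_rr x m
        rw [← sq_le_one_iff_abs_le_one]
        linarith
    exact ⟨fun k => (abs_le.mp (habs k)).1, fun k => (abs_le.mp (habs k)).2⟩
  have h2 : 2 * rr x / x 0 ^ 2 ∉ Set.Icc (1 : ℝ) 2 := by
    intro h
    have h3 := h.2
    rw [div_le_iff₀ hsq] at h3
    nlinarith
  show φ (2 * rr x / x 0 ^ 2) / x 0 ^ 2 * (x i.succ * x j.succ) = 0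
  rw [hφ.supp _ h2]
  simp

/-- Change of sign of one coordinate. -/
private def flp (i : Fin d) : V d ≃ᵐ V d :=
  MeasurableEquiv.piCongrRight (fun k => if k = i.succ then MeasurableEquiv.neg ℝ else MeasurableEquiv.refl ℝ)

private theorem flp_apply (i : Fin d) (x : V d) (k : Fin (d + 1)) :
    flp i x k = if k = i.succ then - x k else x k := by
  show (if k = i.succ then MeasurableEquiv.neg ℝ else MeasurableEquiv.refl ℝ) (x k) = _
  split_ifs <;> rfl

private theorem flp_mp (i : Fin d) : MeasureTheory.MeasurePreserving (flp i) MeasureTheory.volume MeasureTheory.volume := by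
  apply MeasureTheory.volume_preserving_pi
    (f := fun k => ((if k = i.succ then MeasurableEquiv.neg ℝ else MeasurableEquiv.refl ℝ : ℝ ≃ᵐ ℝ) : ℝ → ℝ))
  intro k
  split_ifs
  · exact MeasureTheory.Measure.measurePreserving_neg MeasureTheory.volume
  · exact MeasureTheory.MeasurePreserving.id _

private theorem mom_off (φ : ℝ → ℝ) (i j : Fin d) (hij : i ≠ j) :
    ∫ x in {x : V d | 0 < x 0 ∧ x 0 < 1}, φ (2 * rr x / x 0 ^ 2) / x 0 ^ 2 * (x i.succ * x j.succ) = 0 := by
  rw [← MeasureTheory.integral_indicator meas_U]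
  set G : V d → ℝ := {x : V d | 0 < x 0 ∧ x 0 < 1}.indicator
    (fun x => φ (2 * rr x / x 0 ^ 2) / x 0 ^ 2 * (x i.succ * x j.succ)) with hG
  have h1 : ∫ x, G (flp i x) = ∫ x, G x := (flp_mp i).integral_comp' G
  have h2 : ∀ x, G (flp i x) = - G x := by
    intro x
    have hz : flp i x 0 = x 0 := by
      rw [flp_apply, if_neg (Fin.succ_ne_zero i).symm]
    have hr : rr (flp i x) = rr x := by
      unfold rr
      apply Finset.sum_congr rfl
      intro k _
      rw [flp_apply]
      split_ifs <;> ring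
    have hi : flp i x i.succ = - x i.succ := by
      rw [flp_apply, if_pos rfl]
    have hj : flp i x j.succ = x j.succ := by
      rw [flp_apply, if_neg]
      intro h
      exact hij (Fin.succ_injective _ h).symm
    rw [hG]
    simp only [Set.indicator_apply, Set.mem_ofPred_eq, hz, hr, hi, hj]
    split_ifs
    · ring
    · simp
  have h3 : ∫ x, G (flp i x) = - ∫ x, G x := by
    rw [← MeasureTheory.integral_neg]
    exact MeasureTheory.integral_congr_ae (Filter.Eventually.of_forall h2)
  linarith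

private theorem mom_diag (φ : ℝ → ℝ) (i j : Fin d) :
    ∫ x in {x : V d | 0 < x 0 ∧ x 0 < 1}, φ (2 * rr x / x 0 ^ 2) / x 0 ^ 2 * (x i.succ * x i.succ) =
    ∫ x in {x : V d | 0 < x 0 ∧ x 0 < 1}, φ (2 * rr x / x 0 ^ 2) / x 0 ^ 2 * (x j.succ * x j.succ) := by
  rw [← MeasureTheory.integral_indicator meas_U, ← MeasureTheory.integral_indicator meas_U]
  set σ : Equiv.Perm (Fin (d + 1)) := Equiv.swap i.succ j.succ with hσ
  have hmp := MeasureTheory.volume_measurePreserving_piCongrLeft (fun _ : Fin (d + 1) => ℝ) σ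
  have hap : ∀ (x : V d) (k : Fin (d + 1)),
      (MeasurableEquiv.piCongrLeft (fun _ : Fin (d + 1) => ℝ) σ) x k = x (σ k) := by
    intro x k
    have h := MeasurableEquiv.piCongrLeft_apply_apply (β := fun _ : Fin (d + 1) => ℝ) σ x (σ k)
    have h' : σ (σ k) = k := Equiv.swap_apply_self _ _ _
    rw [h'] at h
    exact h
  rw [← hmp.integral_comp']
  apply MeasureTheory.integral_congr_ae
  refine Filter.Eventually.of_forall (fun x => ?_)
  set y := (MeasurableEquiv.piCongrLeft (fun _ : Fin (d + 1) => ℝ) σ) x with hy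
  have hz : y 0 = x 0 := by
    rw [hy, hap, hσ, Equiv.swap_apply_of_ne_of_ne (Fin.succ_ne_zero i).symm (Fin.succ_ne_zero j).symm]
  have hi : y i.succ = x j.succ := by
    rw [hy, hap, hσ, Equiv.swap_apply_left]
  have hr : rr y = rr x := by
    have h1 : ∀ z : V d, rr z = (∑ k, z k ^ 2) - z 0 ^ 2 := by
      intro z
      rw [Fin.sum_univ_succ]
      unfold rr
      ring
    rw [h1, h1, hz]
    congr 1
    calc ∑ k, y k ^ 2 = ∑ k, x (σ k) ^ 2 := by
          apply Finset.sum_congr rfl
          intro k _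
          rw [hy, hap]
      _ = ∑ k, x k ^ 2 := Equiv.sum_comp σ (fun k => x k ^ 2)
  show {x : V d | 0 < x 0 ∧ x 0 < 1}.indicator
    (fun x => φ (2 * rr x / x 0 ^ 2) / x 0 ^ 2 * (x i.succ * x i.succ)) y = _
  simp only [Set.indicator_apply, Set.mem_ofPred_eq, hz, hr, hi]

theorem mom (φ : ℝ → ℝ) (hφ : Cut φ) : ∃ M : ℝ, 0 < M ∧ ∀ i j : Fin d,
    ∫ x in {x : V d | 0 < x 0 ∧ x 0 < 1}, φ (2 * rr x / x 0 ^ 2) / x 0 ^ 2 * (x i.succ * x j.succ) =
      if i = j then M else 0 := by
  rcases Nat.eq_zero_or_pos d with hd | hd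
  · subst hd
    exact ⟨1, one_pos, fun i => i.elim0⟩
  set i0 : Fin d := ⟨0, hd⟩ with hi0
  refine ⟨∫ x in {x : V d | 0 < x 0 ∧ x 0 < 1}, φ (2 * rr x / x 0 ^ 2) / x 0 ^ 2 * (x i0.succ * x i0.succ), ?_, ?_⟩
  · rw [MeasureTheory.setIntegral_pos_iff_support_of_nonneg_ae _ (mom_int φ hφ i0 i0)]
    · have hO : IsOpen {x : V d | (0 < x 0 ∧ x 0 < 1) ∧ (x 0 ^ 2 < 2 * rr x ∧ rr x < x 0 ^ 2) ∧ x i0.succ ≠ 0} := by
        apply IsOpen.inter
        · exact (isOpen_lt continuous_const (continuous_apply 0)).inter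
            (isOpen_lt (continuous_apply 0) continuous_const)
        · apply IsOpen.inter
          · exact (isOpen_lt ((continuous_apply 0).pow 2) (continuous_const.mul cont_rr)).inter
              (isOpen_lt cont_rr ((continuous_apply 0).pow 2))
          · exact isOpen_ne.preimage (continuous_apply i0.succ)
      have hne : {x : V d | (0 < x 0 ∧ x 0 < 1) ∧ (x 0 ^ 2 < 2 * rr x ∧ rr x < x 0 ^ 2) ∧ x i0.succ ≠ 0}.Nonempty := by
        have hd' : (0 : ℝ) < d := by exact_mod_cast hd
        have ht : (0 : ℝ) < 3 / (16 * d) := by positivity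
        refine ⟨fun k => if k = 0 then 1 / 2 else √(3 / (16 * d)), ?_, ?_, ?_⟩
        · norm_num
        · have hrr : rr (fun k : Fin (d + 1) => if k = 0 then (1 / 2 : ℝ) else √(3 / (16 * d))) = 3 / 16 := by
            unfold rr
            have : ∀ k : Fin d, (if k.succ = 0 then (1 / 2 : ℝ) else √(3 / (16 * d))) ^ 2 = 3 / (16 * d) := by
              intro k
              rw [if_neg (Fin.succ_ne_zero k), Real.sq_sqrt ht.le]
            simp only [this]
            rw [Finset.sum_const, Finset.card_univ, Fintype.card_fin, nsmul_eq_mul]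
            field_simp
          rw [hrr]
          norm_num
        · show (if i0.succ = 0 then (1 / 2 : ℝ) else √(3 / (16 * d))) ≠ 0
          rw [if_neg (Fin.succ_ne_zero i0)]
          exact (Real.sqrt_pos.mpr ht).ne'
      refine lt_of_lt_of_le (hO.measure_pos MeasureTheory.volume hne) (MeasureTheory.measure_mono ?_)
      rintro x ⟨⟨hx0, hx1⟩, ⟨h1, h2⟩, h3⟩
      refine ⟨?_, hx0, hx1⟩
      have hsq : 0 < x 0 ^ 2 := by positivity
      have hp : 0 < φ (2 * rr x / x 0 ^ 2) := by
        apply hφ.pos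
        constructor
        · rw [lt_div_iff₀ hsq]
          linarith
        · rw [div_lt_iff₀ hsq]
          linarith
      have h4 : 0 < x i0.succ * x i0.succ := mul_self_pos.mpr h3
      exact (mul_pos (div_pos hp hsq) h4).ne'
    · refine Filter.Eventually.of_forall (fun x => ?_)
      exact mul_nonneg (div_nonneg (hφ.nonneg _) (sq_nonneg _)) (mul_self_nonneg _)
  · intro i j
    by_cases hij : i = j
    · subst hij
      rw [if_pos rfl]
      exact mom_diag φ i i0
    · rw [if_neg hij]
      exact mom_off φ i j hij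

end Pool.Agent.Work.MP_659252_gt.S
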