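import Pool.Agent.Work.MP_659252_gt.S.Bas

/-!
# The scalar product with a tensor of rank one.  Size: S.

PROOF.  `pr x i` is tangent at `x`; `u ⬝ᵥ pr x i = u i` (as `x ⬝ᵥ u = 0`) and `∑ i, u i • pr x i = u - (x ⬝ᵥ u) • x = u`.  So
`pair τ h x = c ∑ i j, val τ x (pr x i) (pr x j) u_i u_j = c val τ x u u` (bilinearity of `val`).
-/

namespace Pool.Agent.Work.MP_659252_gt.S

open Pool.Agent.Work.MP_659252_gt.Z (V Ten val Tan InT)

variable {d : ℕ}

private theorem sum_swap4 {n : ℕ} (F : Fin n → Fin n → Fin n → Fin n → ℝ) :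
    ∑ k, ∑ l, ∑ i, ∑ j, F k l i j = ∑ i, ∑ j, ∑ k, ∑ l, F k l i j := by
  calc ∑ k, ∑ l, ∑ i, ∑ j, F k l i j = ∑ k, ∑ i, ∑ l, ∑ j, F k l i j :=
        Finset.sum_congr rfl fun k _ => Finset.sum_comm
    _ = ∑ i, ∑ k, ∑ l, ∑ j, F k l i j := Finset.sum_comm
    _ = ∑ i, ∑ k, ∑ j, ∑ l, F k l i j :=
        Finset.sum_congr rfl fun i _ => Finset.sum_congr rfl fun k _ => Finset.sum_comm
    _ = ∑ i, ∑ j, ∑ k, ∑ l, F k l i j := Finset.sum_congr rfl fun i _ => Finset.sum_comm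

private theorem dot_pr (x w : V d) (i : Fin (d + 1)) : w ⬝ᵥ pr x i = w i - x i * (x ⬝ᵥ w) := by
  unfold pr dotProduct
  rw [Finset.mul_sum]
  simp only [mul_sub, Finset.sum_sub_distrib, mul_ite, mul_one, mul_zero]
  rw [Finset.sum_ite_eq' Finset.univ i]
  simp only [Finset.mem_univ, if_true]
  congr 1
  refine Finset.sum_congr rfl fun j _ => ?_
  ring

private theorem sum_pr (x u : V d) (hu : x ⬝ᵥ u = 0) (k : Fin (d + 1)) :
    ∑ i, u i * pr x i k = u k := by
  unfold pr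
  simp only [mul_sub, Finset.sum_sub_distrib, mul_ite, mul_one, mul_zero]
  rw [Finset.sum_ite_eq Finset.univ k]
  simp only [Finset.mem_univ, if_true]
  have h1 : ∑ i, u i * (x i * x k) = (x ⬝ᵥ u) * x k := by
    unfold dotProduct
    rw [Finset.sum_mul]
    refine Finset.sum_congr rfl fun j _ => ?_
    ring
  rw [h1, hu, zero_mul, sub_zero]

theorem pair_rank (τ h : Ten d) (x u : V d) (c : ℝ) (hx : x ⬝ᵥ x = 1) (hu : x ⬝ᵥ u = 0)
    (hh : ∀ v w, Tan x v → Tan x w → val h x v w = c * (u ⬝ᵥ v) * (u ⬝ᵥ w)) :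
    pair τ h x = c * val τ x u u := by
  have ht : ∀ i, Tan x (pr x i) := fun i => ⟨hx, by rw [dot_pr, hx]; ring⟩
  have hd : ∀ i, u ⬝ᵥ pr x i = u i := fun i => by rw [dot_pr, hu]; ring
  have h1 : ∀ i j, val τ x (pr x i) (pr x j) * val h x (pr x i) (pr x j) =
      ∑ k, ∑ l, c * (τ x k l * ((u i * pr x i k) * (u j * pr x j l))) := by
    intro i j
    rw [hh _ _ (ht i) (ht j), hd, hd]
    unfold val
    rw [Finset.sum_mul]
    refine Finset.sum_congr rfl fun k _ => ?_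
    rw [Finset.sum_mul]
    refine Finset.sum_congr rfl fun l _ => ?_
    ring
  unfold pair
  simp only [h1]
  rw [← sum_swap4]
  unfold val
  rw [Finset.mul_sum]
  refine Finset.sum_congr rfl fun k _ => ?_
  rw [Finset.mul_sum]
  refine Finset.sum_congr rfl fun l _ => ?_
  calc ∑ i, ∑ j, c * (τ x k l * ((u i * pr x i k) * (u j * pr x j l)))
      = c * (τ x k l * ((∑ i, u i * pr x i k) * ∑ j, u j * pr x j l)) := by
        rw [Finset.sum_mul_sum, Finset.mul_sum, Finset.mul_sum]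
        refine Finset.sum_congr rfl fun i _ => ?_
        rw [Finset.mul_sum, Finset.mul_sum]
    _ = c * (τ x k l * (u k * u l)) := by rw [sum_pr x u hu, sum_pr x u hu]

end Pool.Agent.Work.MP_659252_gt.S
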