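import Pool.Agent.Work.MP_659252_gt.S.PDa
import Pool.Agent.Work.MP_659252_gt.S.PairO
import Pool.Agent.Work.MP_659252_gt.Y.Lev
import Pool.Agent.Work.MP_659252_gt.Y.Fin

/-!
# The tensors `hD`.  Size: M.

Let `0 < η < 1/2`, `B s = φ ((1 - s) / η)`: smooth, `B s = 0` for `s ∉ [1 - 2 η, 1 - η]`, `0 < 1 - 2 η`, `1 - η < 2`.
PROOF.  `lev_PD`: let `x ≠ 0`, `l = lv c x ≤ 1`.  `Q (PD c) s x x = (x_0² + q) (s - l)` (`PD_Q`).  If `0 < l` then `lev (PD c) 2 x = l` (`Y.lev_eq`).  If `l ≤ 0`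
then no `s ∈ (0, 2)` has `Q_s ≤ 0`, `lev = sSup ∅ = 0`, and `φ ((1 - 0) / η) = 0 = φ ((1 - l) / η)` because `1 / η > 2`, `(1 - l) / η > 2`.  In both cases
`φ ((1 - lev) / η) = φ ((1 - l) / η)`, `1 - l = 2 q / (x_0² + q)`.
`hD_val`: if `φ (...) = 0` both sides are zero; otherwise `l > 0`, `lev = l` and `AX (PD c) l x = uD c x` (`PD_AX`, `l - 1 = -2 q / (x_0² + q)`,
`1 + l = 2 x_0² / (x_0² + q)`), `Q (dot ..) = x_0² + q`; then expand `val`.
`uD_tan`: `Fin.sum_univ_succ`.  `pair_hD`: `pair_rank`.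
`hD_inT`: `(Y.main ..).1` with `PD_nested`.  `hD_odd`: `hD_val`, `Real.sign` odd, `wD (-x) = wD x`, `uD (-x) = -uD x`.
`hD_caps`: let `m = min_i c_i > 0` (over `i ≥ 1`; `exists`, `Fin d` finite; take any `m > 0` with `m ≤ c i`) and let `η` be so small that `4 η ≤ m δ` and `η < 1/2`
(and wlog `δ ≤ 1`).  If `val ≠ 0` then `2 q / (x_0² + q) ≤ 2 η`, so `q (1 - η) ≤ η x_0² ≤ η`, `q ≤ 2 η`, `m (1 - x_0²) ≤ q ≤ 2 η` on the sphere, so
`x_0² ≥ 1 - 2 η / m ≥ 1 - δ/2 > (1 - δ)²` if `δ ≤ 1`; and if `δ > 1` then `|x_0| > 0 > 1 - δ` trivially.  (`x ⬝ᵥ e0 = x 0`.)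
-/

namespace Pool.Agent.Work.MP_659252_gt.S

open Pool.Agent.Work.MP_659252_gt.Z (V Ten val Tan InT)
open Pool.Agent.Work.MP_659252_gt.Y (Path Q dot AX Nested lev conf)

variable {d : ℕ}

private theorem pdb_Q (c : V d) (hc : ∀ i, 0 < c i) (x : V d) (hx : x ≠ 0) (s : ℝ) :
    Q (PD c) s x x = (s - lv c x) * (x 0 ^ 2 + qd c x) := by
  have hP := pos_PD c hc x hx
  have h1 : (x 0 ^ 2 - qd c x) / (x 0 ^ 2 + qd c x) * (x 0 ^ 2 + qd c x) = x 0 ^ 2 - qd c x :=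
    div_mul_cancel₀ _ hP.ne'
  rw [PD_Q, lv, sub_mul s ((x 0 ^ 2 - qd c x) / (x 0 ^ 2 + qd c x)), h1]
  ring

private theorem pdb_one_sub (c : V d) (hc : ∀ i, 0 < c i) (x : V d) (hx : x ≠ 0) :
    1 - lv c x = 2 * qd c x / (x 0 ^ 2 + qd c x) := by
  have hP := pos_PD c hc x hx
  rw [lv]
  field_simp
  ring

private theorem pdb_one_add (c : V d) (hc : ∀ i, 0 < c i) (x : V d) (hx : x ≠ 0) :
    1 + lv c x = 2 * x 0 ^ 2 / (x 0 ^ 2 + qd c x) := by
  have hP := pos_PD c hc x hx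
  rw [lv]
  field_simp
  ring

private theorem pdb_lv_le (c : V d) (hc : ∀ i, 0 < c i) (x : V d) (hx : x ≠ 0) : lv c x ≤ 1 := by
  have h1 := pdb_one_sub c hc x hx
  have h2 : 0 ≤ 2 * qd c x / (x 0 ^ 2 + qd c x) :=
    div_nonneg (mul_nonneg two_pos.le (qd_nonneg c hc x)) (pos_PD c hc x hx).le
  linarith

private theorem pdb_cases (c : V d) (hc : ∀ i, 0 < c i) (x : V d) (hx : x ≠ 0) :
    (0 < lv c x ∧ lev (PD c) 2 x = lv c x) ∨ (lv c x ≤ 0 ∧ lev (PD c) 2 x = 0) := by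
  have hP := pos_PD c hc x hx
  rcases lt_or_ge 0 (lv c x) with h | h
  · left
    refine ⟨h, Y.lev_eq (PD_nested c hc) ⟨h, ?_⟩ x hx ?_⟩
    · have := pdb_lv_le c hc x hx
      linarith
    · rw [pdb_Q c hc x hx, sub_self, zero_mul]
  · right
    refine ⟨h, ?_⟩
    unfold lev
    have h1 : {s | s ∈ Set.Ioo (0 : ℝ) 2 ∧ Q (PD c) s x x ≤ 0} = ∅ := by
      ext s
      simp only [Set.mem_ofPred_eq, Set.mem_empty_iff_false, iff_false, not_and, not_le]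
      intro hs
      rw [pdb_Q c hc x hx]
      exact mul_pos (by linarith [hs.1]) hP
    rw [h1, Real.sSup_empty]

private theorem pdb_cut {φ : ℝ → ℝ} (hφ : Cut φ) {η a : ℝ} (h0 : 0 < η) (h1 : η < 1 / 2) (ha : 1 ≤ a) :
    φ (a / η) = 0 := by
  apply hφ.supp
  rintro ⟨-, h2⟩
  rw [div_le_iff₀ h0] at h2
  linarith

theorem lev_PD (c : V d) (hc : ∀ i, 0 < c i) (φ : ℝ → ℝ) (hφ : Cut φ) (η : ℝ) (h0 : 0 < η) (h1 : η < 1 / 2)
    (x : V d) (hx : x ≠ 0) : φ ((1 - lev (PD c) 2 x) / η) = φ (2 * qd c x / (x 0 ^ 2 + qd c x) / η) := by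
  rw [← pdb_one_sub c hc x hx]
  rcases pdb_cases c hc x hx with ⟨-, h⟩ | ⟨h, h'⟩
  · rw [h]
  · rw [h', pdb_cut hφ h0 h1 (by linarith), pdb_cut hφ h0 h1 (by linarith)]

private theorem pdb_val (A : Path d) (B : ℝ → ℝ) (x v w : V d) :
    val (conf A 2 B) x v w = 2 * (Real.sign (x 0) * B (lev A 2 x)) / Q (dot A) (lev A 2 x) x x *
      (AX A (lev A 2 x) x ⬝ᵥ v) * (AX A (lev A 2 x) x ⬝ᵥ w) := by
  unfold val conf dotProduct
  rw [mul_assoc, Finset.sum_mul_sum, Finset.mul_sum]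
  refine Finset.sum_congr rfl fun i _ => ?_
  rw [Finset.mul_sum]
  refine Finset.sum_congr rfl fun j _ => ?_
  ring

theorem hD_val (c : V d) (hc : ∀ i, 0 < c i) (φ : ℝ → ℝ) (hφ : Cut φ) (η : ℝ) (h0 : 0 < η) (h1 : η < 1 / 2)
    (x : V d) (hx : x ≠ 0) (v w : V d) :
    val (hD c φ η) x v w = 2 * Real.sign (x 0) * wD c φ η x * (uD c x ⬝ᵥ v) * (uD c x ⬝ᵥ w) := by
  unfold hD
  rw [pdb_val, PD_dot, lev_PD c hc φ hφ η h0 h1 x hx]
  by_cases hz : φ (2 * qd c x / (x 0 ^ 2 + qd c x) / η) = 0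
  · simp [wD, hz]
  · have hl : 0 < lv c x ∧ lev (PD c) 2 x = lv c x := by
      rcases pdb_cases c hc x hx with h | ⟨h, -⟩
      · exact h
      · exfalso
        apply hz
        rw [← pdb_one_sub c hc x hx]
        exact pdb_cut hφ h0 h1 (by linarith)
    have hu : AX (PD c) (lev (PD c) 2 x) x = uD c x := by
      funext i
      rw [hl.2, PD_AX]
      unfold uD
      rw [← pdb_one_add c hc x hx, ← pdb_one_sub c hc x hx]
      by_cases hi : i = 0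
      · rw [if_pos hi, if_pos hi]
        ring
      · rw [if_neg hi, if_neg hi]
    rw [hu]
    unfold wD
    ring

theorem uD_tan (c : V d) (x : V d) : x ⬝ᵥ uD c x = 0 := by
  unfold dotProduct
  rw [Fin.sum_univ_succ]
  have h1 : uD c x 0 = -(2 * qd c x / (x 0 ^ 2 + qd c x)) * x 0 := by
    unfold uD
    rw [if_pos rfl]
  have h2 : ∀ i : Fin d, uD c x i.succ = 2 * x 0 ^ 2 / (x 0 ^ 2 + qd c x) * (c i.succ * x i.succ) := by
    intro i
    unfold uD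
    rw [if_neg (Fin.succ_ne_zero i)]
  have h3 : ∑ i : Fin d, x i.succ * uD c x i.succ = 2 * x 0 ^ 2 / (x 0 ^ 2 + qd c x) * qd c x := by
    unfold qd
    rw [Finset.mul_sum]
    refine Finset.sum_congr rfl fun i _ => ?_
    rw [h2]
    unfold qd
    ring
  rw [h1, h3]
  ring

theorem pair_hD (c : V d) (hc : ∀ i, 0 < c i) (φ : ℝ → ℝ) (hφ : Cut φ) (η : ℝ) (h0 : 0 < η) (h1 : η < 1 / 2)
    (τ : Ten d) (x : V d) (hx : x ⬝ᵥ x = 1) :
    pair τ (hD c φ η) x = 2 * Real.sign (x 0) * wD c φ η x * val τ x (uD c x) (uD c x) := by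
  have hx0 : x ≠ 0 := by
    rintro rfl
    simp at hx
  exact pair_rank τ (hD c φ η) x (uD c x) _ hx (uD_tan c x)
    fun v w _ _ => hD_val c hc φ hφ η h0 h1 x hx0 v w

theorem hD_inT (hd : 3 ≤ d) (c : V d) (hc : ∀ i, 0 < c i) (φ : ℝ → ℝ) (hφ : Cut φ) (η : ℝ) (h0 : 0 < η)
    (h1 : η < 1 / 2) : InT (hD c φ η) := by
  refine (Y.main d hd (PD c) 2 (PD_nested c hc) (fun s => φ ((1 - s) / η)) ?_ (1 - 2 * η) (1 - η)
    (by linarith) (by linarith) (by linarith) ?_).1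
  · exact hφ.smooth.comp ((contDiff_const.sub contDiff_id).div_const η)
  · intro s hs
    apply hφ.supp
    rintro ⟨h2, h3⟩
    apply hs
    rw [le_div_iff₀ h0] at h2
    rw [div_le_iff₀ h0] at h3
    exact ⟨by linarith, by linarith⟩

theorem hD_odd (c : V d) (hc : ∀ i, 0 < c i) (φ : ℝ → ℝ) (hφ : Cut φ) (η : ℝ) (h0 : 0 < η) (h1 : η < 1 / 2) :
    IsOdd (hD c φ η) := by
  intro x v w hv hw
  have hx0 : x ≠ 0 := by
    rintro rfl
    have := hv.1
    simp at this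
  have hq : qd c (-x) = qd c x := by
    unfold qd
    refine Finset.sum_congr rfl fun i _ => ?_
    rw [Pi.neg_apply]
    ring
  have hu : uD c (-x) = -uD c x := by
    funext i
    rw [Pi.neg_apply]
    unfold uD
    rw [hq, Pi.neg_apply, Pi.neg_apply, neg_sq]
    split_ifs <;> ring
  have hw' : wD c φ η (-x) = wD c φ η x := by
    unfold wD
    rw [hq, Pi.neg_apply, neg_sq]
  rw [hD_val c hc φ hφ η h0 h1 (-x) (neg_ne_zero.2 hx0), hD_val c hc φ hφ η h0 h1 x hx0, hu, hw',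
    Pi.neg_apply, Real.sign_neg, neg_dotProduct, neg_dotProduct]
  ring

theorem hD_caps (c : V d) (hc : ∀ i, 0 < c i) (φ : ℝ → ℝ) (hφ : Cut φ) (δ : ℝ) (hδ : 0 < δ) :
    ∃ η₀ : ℝ, 0 < η₀ ∧ ∀ η, 0 < η → η < η₀ → InCaps (e0 : V d) δ (hD c φ η) := by
  obtain ⟨i₀, -, hi₀⟩ := Finset.exists_min_image (Finset.univ : Finset (Fin (d + 1))) c
    ⟨0, Finset.mem_univ _⟩
  have hm := hc i₀
  have hm' : ∀ i, c i₀ ≤ c i := fun i => hi₀ i (Finset.mem_univ _)
  refine ⟨min (1 / 2) (c i₀ * δ / 4), lt_min (by norm_num) (by positivity), ?_⟩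
  intro η h0 hη x v w hv hw hx
  have hη1 : η < 1 / 2 := lt_of_lt_of_le hη (min_le_left _ _)
  have hη2 : η < c i₀ * δ / 4 := lt_of_lt_of_le hη (min_le_right _ _)
  have hx0 : x ≠ 0 := by
    rintro rfl
    have := hv.1
    simp at this
  have he : x ⬝ᵥ (e0 : V d) = x 0 := by
    unfold e0 dotProduct
    simp
  rw [he] at hx
  have hδ1 : δ ≤ 1 := by
    have := abs_nonneg (x 0)
    linarith
  rw [hD_val c hc φ hφ η h0 hη1 x hx0]
  have hw0 : wD c φ η x = 0 := by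
    unfold wD
    have hz : φ (2 * qd c x / (x 0 ^ 2 + qd c x) / η) = 0 := by
      by_contra hne
      have hin : 2 * qd c x / (x 0 ^ 2 + qd c x) / η ∈ Set.Icc (1 : ℝ) 2 := by
        by_contra hn
        exact hne (hφ.supp _ hn)
      have hP := pos_PD c hc x hx0
      have h2 := hin.2
      rw [div_le_iff₀ h0, div_le_iff₀ hP] at h2
      have hs : x 0 ^ 2 + ∑ i : Fin d, x i.succ ^ 2 = 1 := by
        have := hv.1
        unfold dotProduct at this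
        rw [Fin.sum_univ_succ] at this
        simp only [← sq] at this
        exact this
      have hq : c i₀ * ∑ i : Fin d, x i.succ ^ 2 ≤ qd c x := by
        unfold qd
        rw [Finset.mul_sum]
        refine Finset.sum_le_sum fun i _ => ?_
        exact mul_le_mul_of_nonneg_right (hm' _) (sq_nonneg _)
      have hx2 : x 0 ^ 2 ≤ (1 - δ) ^ 2 := by
        rw [← sq_abs (x 0)]
        exact pow_le_pow_left₀ (abs_nonneg _) hx 2
      have hr : ∑ i : Fin d, x i.succ ^ 2 = 1 - x 0 ^ 2 := by linarith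
      rw [hr] at hq
      have hx1 : x 0 ^ 2 ≤ 1 := by
        have : 0 ≤ ∑ i : Fin d, x i.succ ^ 2 := Finset.sum_nonneg fun i _ => sq_nonneg _
        linarith
      have hqn := qd_nonneg c hc x
      have h3 : qd c x ≤ 2 * η := by nlinarith
      have h4 : δ ≤ 1 - x 0 ^ 2 := by nlinarith
      nlinarith [mul_le_mul_of_nonneg_left h4 hm.le]
    rw [hz, zero_div]
  rw [hw0]
  ring

end Pool.Agent.Work.MP_659252_gt.S
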