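import Pool.Agent.Work.MP_659252_gt.S.Bas

/-!
# Rescaling.  Size: S-M.

PROOF.  `dil c η` is the linear map with the diagonal matrix `D = diag (1, √(η / c_i))`, `det D = ∏ √(η / c_i) ≠ 0`.  Change of variables `x = D y`
(`Real.smul_map_diagonal_volume_pi`, or `MeasureTheory.integral_image_eq_integral_abs_det_fderiv_smul`, or `MeasureTheory.Measure.map_linearMap_addHaar_eq_smul_addHaar`):
`∫ F x dx = |det D| ∫ F (D y) dy`, for `F` the indicator of the half ball times the integrand.  `(D y)_0 = y_0`, `qd c (D y) = η rr y` (`c_i (η / c_i) = η`,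
`√·^2`), `uD c (D y) = √η • uE c η y` (`c_i √(η / c_i) = √η √c_i`, `η = √η √η`), `wD c φ η (D y) = φ (2 rr y / (y_0² + η rr y)) / (y_0² + η rr y)`
(`2 η r / m / η = 2 r / m`), and `sg τ z (√η • u) = η sg τ z u`.
-/

namespace Pool.Agent.Work.MP_659252_gt.S

open Pool.Agent.Work.MP_659252_gt.Z (V Ten val Tan InT)

variable {d : ℕ}

open MeasureTheory in
private theorem dil_integral (c : V d) (hc : ∀ i, 0 < c i) (η : ℝ) (h0 : 0 < η) (g : V d → ℝ) :
    ∫ x, g x = (∏ i : Fin d, √(η / c i.succ)) * ∫ y, g (dil c η y) := by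
  set D : Fin (d + 1) → ℝ := fun i => if i = 0 then 1 else √(η / c i) with hD
  have hD0 : ∀ i, 0 < D i := by
    intro i
    simp only [hD]
    split_ifs
    · exact one_pos
    · exact Real.sqrt_pos.2 (div_pos h0 (hc i))
  have hdet : (Matrix.diagonal D).det = ∏ i : Fin d, √(η / c i.succ) := by
    rw [Matrix.det_diagonal, Fin.prod_univ_succ]
    simp [hD, Fin.succ_ne_zero]
  have hpos : 0 < (Matrix.diagonal D).det := by
    rw [Matrix.det_diagonal]
    exact Finset.prod_pos fun i _ => hD0 i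
  let e : V d ≃ₜ V d := Homeomorph.piCongrRight fun i => Homeomorph.mulLeft₀ (D i) (hD0 i).ne'
  have he : ∀ y, e y = dil c η y := by
    intro y
    funext i
    show D i * y i = dil c η y i
    simp only [hD, dil]
    split_ifs with h
    · rw [one_mul, h]
    · rfl
  have h1 : (Matrix.toLin' (Matrix.diagonal D) : V d → V d) = e := by
    funext y i
    rw [Matrix.toLin'_apply, Matrix.mulVec_diagonal]
    rfl
  have h2 := Real.smul_map_diagonal_volume_pi (D := D) hpos.ne'
  rw [h1] at h2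
  calc ∫ x, g x = ∫ x, g x ∂(ENNReal.ofReal |(Matrix.diagonal D).det| •
        Measure.map e (volume : Measure (V d))) := by rw [h2]
    _ = (∏ i : Fin d, √(η / c i.succ)) * ∫ y, g (dil c η y) := by
      rw [integral_smul_measure, e.measurableEmbedding.integral_map, abs_of_pos hpos,
        ENNReal.toReal_ofReal hpos.le, hdet, smul_eq_mul]
      simp only [he]

private theorem qd_dil (c : V d) (hc : ∀ i, 0 < c i) (η : ℝ) (h0 : 0 < η) (y : V d) :
    qd c (dil c η y) = η * rr y := by
  unfold qd rr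
  rw [Finset.mul_sum]
  refine Finset.sum_congr rfl fun i _ => ?_
  simp only [dil, Fin.succ_ne_zero, if_false]
  have h1 := hc i.succ
  rw [mul_pow, Real.sq_sqrt (div_pos h0 h1).le]
  field_simp

private theorem uD_dil (c : V d) (hc : ∀ i, 0 < c i) (η : ℝ) (h0 : 0 < η) (y : V d) :
    uD c (dil c η y) = √η • uE c η y := by
  funext i
  rw [Pi.smul_apply, smul_eq_mul]
  unfold uD uE
  rw [qd_dil c hc η h0]
  have h00 : dil c η y 0 = y 0 := by simp [dil]
  rw [h00]
  have hs : √η * √η = η := Real.mul_self_sqrt h0.le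
  by_cases hi : i = 0
  · rw [if_pos hi, if_pos hi]
    have h2 : √η * (-(2 * √η * rr y / (y 0 ^ 2 + η * rr y)) * y 0) =
        -(2 * (√η * √η * rr y) / (y 0 ^ 2 + η * rr y)) * y 0 := by ring
    rw [h2, hs]
  · rw [if_neg hi, if_neg hi]
    have h1 := hc i
    have h2 : c i * dil c η y i = √η * (√(c i) * y i) := by
      simp only [dil, hi, if_false]
      have h3 : √(η / c i) = √η / √(c i) := Real.sqrt_div h0.le _
      have h4 : √(c i) * √(c i) = c i := Real.mul_self_sqrt h1.le
      have h5 : 0 < √(c i) := Real.sqrt_pos.2 h1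
      rw [h3]
      have h6 : c i * (√η / √(c i) * y i) = (√(c i) * √(c i)) * (√η / √(c i) * y i) := by rw [h4]
      rw [h6]
      field_simp
    rw [h2]
    ring

private theorem sg_smul (τ : Ten d) (z u : V d) (a : ℝ) : sg τ z (a • u) = a ^ 2 * sg τ z u := by
  have h1 : ∀ x : V d, val τ x (a • u) (a • u) = a ^ 2 * val τ x u u := by
    intro x
    unfold val
    rw [Finset.mul_sum]
    refine Finset.sum_congr rfl fun i _ => ?_
    rw [Finset.mul_sum]
    refine Finset.sum_congr rfl fun j _ => ?_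
    simp only [Pi.smul_apply, smul_eq_mul]
    ring
  unfold sg
  rw [h1, h1]
  ring

theorem scl (c : V d) (hc : ∀ i, 0 < c i) (φ : ℝ → ℝ) (η : ℝ) (h0 : 0 < η) (τ : Ten d) :
    ∫ x in {x : V d | 0 < x 0 ∧ x ⬝ᵥ x < 1}, wD c φ η x * sg τ x (uD c x) =
      (∏ i : Fin d, √(η / c i.succ)) * η * ∫ x, KE τ c φ η x := by
  have hm : MeasurableSet {x : V d | 0 < x 0 ∧ x ⬝ᵥ x < 1} := by
    have h1 : IsOpen {x : V d | 0 < x 0 ∧ x ⬝ᵥ x < 1} := by
      refine IsOpen.and ?_ ?_
      · exact isOpen_lt continuous_const (continuous_apply 0)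
      · refine isOpen_lt ?_ continuous_const
        unfold dotProduct
        fun_prop
    exact h1.measurableSet
  rw [← MeasureTheory.integral_indicator hm, dil_integral c hc η h0, mul_assoc]
  congr 1
  rw [← MeasureTheory.integral_const_mul]
  refine MeasureTheory.integral_congr_ae (Filter.Eventually.of_forall fun y => ?_)
  have h00 : dil c η y 0 = y 0 := by simp [dil]
  simp only [KE]
  by_cases hy : 0 < y 0 ∧ dil c η y ⬝ᵥ dil c η y < 1
  · rw [Set.indicator_of_mem (show dil c η y ∈ {x : V d | 0 < x 0 ∧ x ⬝ᵥ x < 1} from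
      ⟨by rw [h00]; exact hy.1, hy.2⟩),
      Set.indicator_of_mem (show y ∈ {x : V d | 0 < x 0 ∧ dil c η x ⬝ᵥ dil c η x < 1} from hy),
      uD_dil c hc η h0, sg_smul, Real.sq_sqrt h0.le]
    have h1 : wD c φ η (dil c η y) =
        φ (2 * rr y / (y 0 ^ 2 + η * rr y)) / (y 0 ^ 2 + η * rr y) := by
      unfold wD
      rw [qd_dil c hc η h0, h00]
      have h2 : 2 * (η * rr y) / (y 0 ^ 2 + η * rr y) / η = 2 * rr y / (y 0 ^ 2 + η * rr y) := by
        have h3 : 2 * (η * rr y) / (y 0 ^ 2 + η * rr y) / η =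
          (η / η) * (2 * rr y / (y 0 ^ 2 + η * rr y)) := by ring
        rw [h3, div_self h0.ne', one_mul]
      rw [h2]
    rw [h1]
    ring
  · rw [Set.indicator_of_notMem (show dil c η y ∉ {x : V d | 0 < x 0 ∧ x ⬝ᵥ x < 1} from
      fun h => hy ⟨by rw [← h00]; exact h.1, h.2⟩),
      Set.indicator_of_notMem (show y ∉ {x : V d | 0 < x 0 ∧ dil c η x ⬝ᵥ dil c η x < 1} from hy),
      mul_zero]

end Pool.Agent.Work.MP_659252_gt.S
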