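import Pool.Agent.Work.MP_659252_gt.S.Half
import Pool.Agent.Work.MP_659252_gt.S.Scl
import Pool.Agent.Work.MP_659252_gt.S.Lim
import Pool.Agent.Work.MP_659252_gt.S.Mom
import Pool.Agent.Work.MP_659252_gt.S.PDb

/-!
# The theorem at `e0`, on the diagonal.  Size: M.

PROOF.  A function `φ` with `Cut φ` exists (`cut_exists`: a translate of `expNegInvGlue`, e.g. `expNegInvGlue (s - 1) * expNegInvGlue (2 - s)`).
`int_KZ`: `sg τ e0 (uZ c x) = ∑ i j : Fin d, σ i j √c_i √c_j x_i x_j`, `σ i j = τ e0 i.succ j.succ - τ (-e0) i.succ j.succ` (expand `val`, `Fin.sum_univ_succ`, the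
`0` components of `uZ` vanish, `(√(e0 ⬝ᵥ e0))⁻¹ • e0 = e0`); integrate term by term (`mom_int`, `mom`): `∫ KZ = 4 M ∑ i, c_i σ i i`.
`key`: let `c > 0`.  For `0 < η < min (1/2) η₀` (`hD_caps`) `horth` applies to `hD c φ η` (`hD_inT`, `hD_odd`, `hD_caps`) and `sint_hD`, `scl` give
`∫ KE τ c φ η = 0`; so `∫ KZ τ c φ = 0` (`lim_KE`, uniqueness of limits), that is `∑ i, c_i σ i i = 0`.  Take `c = 1` and `c = 1 + e_i` (`Function.update`): the
difference is `σ i i = 0`.
-/

namespace Pool.Agent.Work.MP_659252_gt.S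

open Pool.Agent.Work.MP_659252_gt.Z (V Ten val Tan InT)

variable {d : ℕ}

theorem cut_exists : ∃ φ : ℝ → ℝ, Cut φ := by
  refine ⟨fun s => expNegInvGlue (s - 1) * expNegInvGlue (2 - s), ?_, ?_, ?_, ?_⟩
  · exact (expNegInvGlue.contDiff.comp (contDiff_id.sub contDiff_const)).mul
      (expNegInvGlue.contDiff.comp (contDiff_const.sub contDiff_id))
  · intro s
    exact mul_nonneg (expNegInvGlue.nonneg _) (expNegInvGlue.nonneg _)
  · intro s hs
    rw [Set.mem_Icc, not_and_or, not_le, not_le] at hs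
    rcases hs with h | h
    · rw [expNegInvGlue.zero_of_nonpos (by linarith), zero_mul]
    · rw [expNegInvGlue.zero_of_nonpos (x := 2 - s) (by linarith), mul_zero]
  · intro s hs
    exact mul_pos (expNegInvGlue.pos_of_pos (by linarith [hs.1])) (expNegInvGlue.pos_of_pos (by linarith [hs.2]))

private theorem key_U : MeasurableSet {x : V d | 0 < x 0 ∧ x 0 < 1} := by
  apply MeasurableSet.inter
  · exact measurableSet_lt measurable_const (measurable_pi_apply 0)
  · exact measurableSet_lt (measurable_pi_apply 0) measurable_const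

private theorem e0_dot : (e0 : V d) ⬝ᵥ e0 = 1 := by
  simp [e0, dotProduct]

private theorem val_uZ (G : V d) (τ : Ten d) (c x : V d) :
    val τ G (uZ c x) (uZ c x) =
      ∑ i : Fin d, ∑ j : Fin d, τ G i.succ j.succ * (√(c i.succ) * x i.succ * (√(c j.succ) * x j.succ)) := by
  unfold val
  rw [Fin.sum_univ_succ]
  have h0 : uZ c x 0 = 0 := by simp [uZ]
  have hs : ∀ i : Fin d, uZ c x i.succ = √(c i.succ) * x i.succ := by
    intro i
    simp [uZ, Fin.succ_ne_zero]
  have h1 : ∑ j, τ G 0 j * (uZ c x 0 * uZ c x j) = 0 := by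
    refine Finset.sum_eq_zero fun j _ => ?_
    rw [h0, zero_mul, mul_zero]
  rw [h1, zero_add]
  refine Finset.sum_congr rfl fun i _ => ?_
  rw [Fin.sum_univ_succ, h0, mul_zero, mul_zero, zero_add]
  refine Finset.sum_congr rfl fun j _ => ?_
  rw [hs, hs]

private theorem sg_e0 (τ : Ten d) (c x : V d) :
    sg τ e0 (uZ c x) = ∑ i : Fin d, ∑ j : Fin d, (τ e0 i.succ j.succ - τ (-e0) i.succ j.succ) *
      (√(c i.succ) * √(c j.succ)) * (x i.succ * x j.succ) := by
  unfold sg
  rw [e0_dot, Real.sqrt_one, inv_one, one_smul, val_uZ, val_uZ, ← Finset.sum_sub_distrib]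
  refine Finset.sum_congr rfl fun i _ => ?_
  rw [← Finset.sum_sub_distrib]
  refine Finset.sum_congr rfl fun j _ => ?_
  ring

theorem int_KZ (c : V d) (hc : ∀ i, 0 < c i) (φ : ℝ → ℝ) (hφ : Cut φ) (τ : Ten d) : ∃ M : ℝ, 0 < M ∧
    ∫ x, KZ τ c φ x = M * ∑ i : Fin d, c i.succ * (τ e0 i.succ i.succ - τ (-e0) i.succ i.succ) := by
  obtain ⟨M, hM, hmom⟩ := mom (d := d) φ hφ
  refine ⟨4 * M, by positivity, ?_⟩
  unfold KZ
  rw [MeasureTheory.integral_indicator key_U]
  have h1 : ∀ x : V d, φ (2 * rr x / x 0 ^ 2) / x 0 ^ 2 * (4 * sg τ e0 (uZ c x)) =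
      ∑ i : Fin d, ∑ j : Fin d, (4 * ((τ e0 i.succ j.succ - τ (-e0) i.succ j.succ) *
        (√(c i.succ) * √(c j.succ)))) * (φ (2 * rr x / x 0 ^ 2) / x 0 ^ 2 * (x i.succ * x j.succ)) := by
    intro x
    rw [sg_e0, Finset.mul_sum, Finset.mul_sum]
    refine Finset.sum_congr rfl fun i _ => ?_
    rw [Finset.mul_sum, Finset.mul_sum]
    refine Finset.sum_congr rfl fun j _ => ?_
    ring
  simp only [h1]
  rw [MeasureTheory.integral_finsetSum]
  · rw [Finset.mul_sum]
    refine Finset.sum_congr rfl fun i _ => ?_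
    rw [MeasureTheory.integral_finsetSum]
    · rw [Finset.sum_eq_single i]
      · rw [MeasureTheory.integral_const_mul, hmom, if_pos rfl, Real.mul_self_sqrt (hc _).le]
        ring
      · intro j _ hj
        rw [MeasureTheory.integral_const_mul, hmom, if_neg (fun h => hj h.symm), mul_zero]
      · intro h
        exact absurd (Finset.mem_univ i) h
    · intro j _
      exact (mom_int φ hφ i j).const_mul _
  · intro i _
    exact MeasureTheory.integrable_finsetSum _ fun j _ => (mom_int φ hφ i j).const_mul _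

theorem key (hd : 3 ≤ d) (τ : Ten d) (hτ : ContinuousOn τ {x | x ⬝ᵥ x = 1}) (δ : ℝ) (hδ : 0 < δ)
    (horth : ∀ h : Ten d, InT h → IsOdd h → InCaps e0 δ h → sint (pair τ h) = 0) (i : Fin d) :
    τ e0 i.succ i.succ = τ (-e0) i.succ i.succ := by
  obtain ⟨φ, hφ⟩ := cut_exists
  have hall : ∀ c : V d, (∀ i, 0 < c i) →
      ∑ i : Fin d, c i.succ * (τ e0 i.succ i.succ - τ (-e0) i.succ i.succ) = 0 := by
    intro c hc
    obtain ⟨η₀, hη₀, hcap⟩ := hD_caps c hc φ hφ δ hδ
    have hev : ∀ᶠ η : ℝ in nhdsWithin 0 (Set.Ioi 0), ∫ x, KE τ c φ η x = 0 := by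
      have hpos : (0 : ℝ) < min (1 / 2) η₀ := lt_min (by norm_num) hη₀
      filter_upwards [Ioo_mem_nhdsGT hpos] with η hη
      have h0 : 0 < η := hη.1
      have h1 : η < 1 / 2 := lt_of_lt_of_le hη.2 (min_le_left _ _)
      have h2 : η < η₀ := lt_of_lt_of_le hη.2 (min_le_right _ _)
      have h3 := horth (hD c φ η) (hD_inT hd c hc φ hφ η h0 h1) (hD_odd c hc φ hφ η h0 h1) (hcap η h0 h2)
      rw [sint_hD c hc φ hφ η h0 h1 τ hτ, scl c hc φ η h0 τ] at h3
      have h4 : (0 : ℝ) < ∏ i : Fin d, √(η / c i.succ) :=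
        Finset.prod_pos fun i _ => Real.sqrt_pos.2 (div_pos h0 (hc _))
      have h5 : (∏ i : Fin d, √(η / c i.succ)) * η ≠ 0 := (mul_pos h4 h0).ne'
      have h6 : (∏ i : Fin d, √(η / c i.succ)) * η * ∫ x, KE τ c φ η x = 0 := by linarith
      exact (mul_eq_zero.1 h6).resolve_left h5
    have hlim := lim_KE c hc φ hφ τ hτ
    have h0 : ∫ x, KZ τ c φ x = 0 :=
      tendsto_nhds_unique hlim ((Filter.tendsto_congr' hev).2 tendsto_const_nhds)
    obtain ⟨M, hM, hK⟩ := int_KZ c hc φ hφ τ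
    rw [h0] at hK
    exact (mul_eq_zero.1 hK.symm).resolve_left hM.ne'
  have h1 := hall (fun _ => 1) (fun _ => one_pos)
  have h2 := hall (fun j => if j = i.succ then 2 else 1) (fun j => by split_ifs <;> norm_num)
  have h3 : ∑ j : Fin d, (if j.succ = i.succ then (2 : ℝ) else 1) *
      (τ e0 j.succ j.succ - τ (-e0) j.succ j.succ) =
      ∑ j : Fin d, 1 * (τ e0 j.succ j.succ - τ (-e0) j.succ j.succ) +
        (τ e0 i.succ i.succ - τ (-e0) i.succ i.succ) := by
    have h4 : ∀ j : Fin d, (if j.succ = i.succ then (2 : ℝ) else 1) *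
        (τ e0 j.succ j.succ - τ (-e0) j.succ j.succ) =
        1 * (τ e0 j.succ j.succ - τ (-e0) j.succ j.succ) +
          (if j = i then (τ e0 j.succ j.succ - τ (-e0) j.succ j.succ) else 0) := by
      intro j
      by_cases hj : j = i
      · subst hj
        rw [if_pos rfl, if_pos rfl]
        ring
      · rw [if_neg (fun h => hj (Fin.succ_injective _ h)), if_neg hj, add_zero]
    rw [Finset.sum_congr rfl fun j _ => h4 j, Finset.sum_add_distrib, Finset.sum_ite_eq' Finset.univ i,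
      if_pos (Finset.mem_univ i)]
  rw [h3, h1, zero_add] at h2
  linarith

end Pool.Agent.Work.MP_659252_gt.S
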