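import Pool.Agent.Work.MP_659252_gt.S.Bas

/-!
# The diagonal path
-/

namespace Pool.Agent.Work.MP_659252_gt.S

open Pool.Agent.Work.MP_659252_gt.Z (V Ten val Tan InT)
open Pool.Agent.Work.MP_659252_gt.Y (Path Q dot AX Nested)

variable {d : ℕ}

theorem qd_nonneg (c : V d) (hc : ∀ i, 0 < c i) (x : V d) : 0 ≤ qd c x :=
  Finset.sum_nonneg fun i _ => mul_nonneg (hc _).le (sq_nonneg _)

private theorem pda_qd_pos (c : V d) (hc : ∀ i, 0 < c i) (x : V d) (h : ∃ i : Fin d, x i.succ ≠ 0) :
    0 < qd c x := by
  obtain ⟨i, hi⟩ := h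
  exact Finset.sum_pos' (fun j _ => mul_nonneg (hc _).le (sq_nonneg _))
    ⟨i, Finset.mem_univ _, mul_pos (hc _) (by positivity)⟩

theorem pos_PD (c : V d) (hc : ∀ i, 0 < c i) (x : V d) (hx : x ≠ 0) : 0 < x 0 ^ 2 + qd c x := by
  by_cases h0 : x 0 = 0
  · have h1 : ∃ i : Fin d, x i.succ ≠ 0 := by
      by_contra h2
      push Not at h2
      apply hx
      funext i
      refine Fin.cases h0 (fun j => h2 j) i
    have := pda_qd_pos c hc x h1
    positivity
  · have h1 := qd_nonneg c hc x
    have h2 : 0 < x 0 ^ 2 := by positivity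
    linarith

private theorem pda_diag (a : Fin (d + 1) → ℝ) (x : V d) :
    ∑ i, ∑ j, (if i = j then a i else 0) * (x i * x j) =
      a 0 * x 0 ^ 2 + ∑ i : Fin d, a i.succ * x i.succ ^ 2 := by
  have h1 : ∀ i, ∑ j, (if i = j then a i else 0) * (x i * x j) = a i * x i ^ 2 := by
    intro i
    rw [Finset.sum_eq_single i]
    · rw [if_pos rfl]
      ring
    · intro j _ hj
      rw [if_neg fun h => hj h.symm, zero_mul]
    · intro h
      exact absurd (Finset.mem_univ i) h
  simp only [h1]
  rw [Fin.sum_univ_succ]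

theorem PD_Q (c : V d) (s : ℝ) (x : V d) : Q (PD c) s x x = (s - 1) * x 0 ^ 2 + (1 + s) * qd c x := by
  unfold Q PD
  rw [pda_diag (fun i => if i = 0 then s - 1 else (1 + s) * c i) x, qd, Finset.mul_sum]
  simp only [if_true, Fin.succ_ne_zero, if_false]
  congr 1
  exact Finset.sum_congr rfl fun i _ => by ring

private theorem pda_dot (c : V d) (s : ℝ) (i j : Fin (d + 1)) :
    dot (PD c) s i j = if i = j then (if i = 0 then 1 else c i) else 0 := by
  unfold dot PD
  by_cases hij : i = j
  · simp only [if_pos hij]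
    by_cases hi : i = 0
    · simp only [if_pos hi]
      simp
    · simp only [if_neg hi]
      have : HasDerivAt (fun u : ℝ => (1 + u) * c i) (1 * c i) s :=
        ((hasDerivAt_id s).const_add 1).mul_const (c i)
      rw [this.deriv, one_mul]
  · simp only [if_neg hij]
    simp

theorem PD_dot (c : V d) (s : ℝ) (x : V d) : Q (dot (PD c)) s x x = x 0 ^ 2 + qd c x := by
  unfold Q
  simp only [pda_dot]
  rw [pda_diag (fun i => if i = 0 then 1 else c i) x, qd]
  simp only [if_true, Fin.succ_ne_zero, if_false, one_mul]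

theorem PD_AX (c : V d) (s : ℝ) (x : V d) (i : Fin (d + 1)) :
    AX (PD c) s x i = if i = 0 then (s - 1) * x 0 else (1 + s) * (c i * x i) := by
  unfold AX PD
  rw [Finset.sum_eq_single i]
  · simp only [if_true]
    by_cases hi : i = 0
    · rw [if_pos hi, if_pos hi, hi]
    · rw [if_neg hi, if_neg hi]
      ring
  · intro j _ hj
    rw [if_neg fun h => hj h.symm, zero_mul]
  · intro h
    exact absurd (Finset.mem_univ i) h

theorem PD_nested (c : V d) (hc : ∀ i, 0 < c i) : Nested (PD c) 2 where
  smooth := by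
    intro i j
    refine ContDiff.contDiffOn ?_
    unfold PD
    by_cases hij : i = j
    · simp only [if_pos hij]
      by_cases hi : i = 0
      · simp only [if_pos hi]
        fun_prop
      · simp only [if_neg hi]
        fun_prop
    · simp only [if_neg hij]
      exact contDiff_const
  symm := by
    intro s i j
    unfold PD
    by_cases hij : i = j
    · rw [hij]
    · rw [if_neg hij, if_neg fun h => hij h.symm]
  pos := by
    intro s hs z hz h0
    rw [PD_Q, h0]
    have h1 := pos_PD c hc z hz
    rw [h0] at h1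
    have h2 : 0 < 1 + s := by linarith [hs.1]
    have h3 : 0 < qd c z := by nlinarith [h1]
    nlinarith [mul_pos h2 h3]
  mono := by
    intro s _ x hx
    rw [PD_dot]
    exact pos_PD c hc x hx

end Pool.Agent.Work.MP_659252_gt.S
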