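import Pool.Agent.Work.MP_659252_gt.S.Bas

/-!
# Rotation invariance of `T_d`.  Size: M.

PROOF.  `val_rotT`: expand; `(Rᵀ v) k = ∑ i, R i k * v i`.
`InT_rotT`: same `ε`, the family `rotT R (G t)`.
* Smoothness: `(t, x) ↦ G t (Rᵀ x)` is the composition of the given smooth map with the linear map `(t, x) ↦ (t, Rᵀ x)`, which maps
  `(-ε, ε) × {0}ᶜ` to itself (`Rᵀ` is injective); `rotT` is a finite sum of constant multiples of its components.
* `IsMetric (rotT R G)`: `symm`: swap the sums; `pos`: `val_rotT`, `Tan x v → Tan (Rᵀ x) (Rᵀ v)` and `Rᵀ v ≠ 0` (`R` orthogonal: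
  `(Rᵀ x) ⬝ᵥ (Rᵀ y) = x ⬝ᵥ y`).
* Geodesics: if `γ` is a geodesic of `rotT R G` then `Rᵀ γ` is a geodesic of `G`: for a variation `Γ` of `Rᵀ γ`, `R Γ` is a variation of `γ`
  (`R Rᵀ = 1`), and `energy (rotT R G) (R Γ (s, .)) = energy G (Γ (s, .))` because `val_rotT` and `deriv (R γ) = R (deriv γ)` (linear map, and
  `Γ (s, .)` is differentiable).  Unit speed is preserved, so `Rᵀ γ` is `L`-periodic and injective on `[0, L)`, hence so is `γ = R Rᵀ γ`.
* The value at `t = 0`: `val_rotT` and `(Rᵀ v) ⬝ᵥ (Rᵀ w) = v ⬝ᵥ w`; the derivative: `val_rotT` on both sides.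
-/

namespace Pool.Agent.Work.MP_659252_gt.S

open Pool.Agent.Work.MP_659252_gt.Z (V Ten val Tan InT IsZoll IsGeodesic IsMetric)

variable {d : ℕ}

open scoped ContDiff in
private theorem Rot_sum4 {ι : Type} [Fintype ι] (f : ι → ι → ι → ι → ℝ) :
    ∑ i, ∑ j, ∑ k, ∑ l, f i j k l = ∑ k, ∑ l, ∑ i, ∑ j, f i j k l := by
  have h1 : ∀ i, ∑ j, ∑ k, ∑ l, f i j k l = ∑ k, ∑ j, ∑ l, f i j k l := fun i => Finset.sum_comm
  simp only [h1]
  rw [Finset.sum_comm]
  refine Finset.sum_congr rfl fun k _ => ?_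
  have h2 : ∀ i, ∑ j, ∑ l, f i j k l = ∑ l, ∑ j, f i j k l := fun i => Finset.sum_comm
  simp only [h2]
  rw [Finset.sum_comm]

theorem val_rotT (R : Matrix (Fin (d + 1)) (Fin (d + 1)) ℝ) (h : Ten d) (x v w : V d) :
    val (rotT R h) x v w = val h (R.transpose.mulVec x) (R.transpose.mulVec v) (R.transpose.mulVec w) := by
  unfold val rotT
  generalize h (R.transpose.mulVec x) = H
  have h1 : ∀ i j, (∑ k, ∑ l, R i k * R j l * H k l) * (v i * w j) =
      ∑ k, ∑ l, H k l * ((R i k * v i) * (R j l * w j)) := by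
    intro i j
    rw [Finset.sum_mul]
    refine Finset.sum_congr rfl fun k _ => ?_
    rw [Finset.sum_mul]
    refine Finset.sum_congr rfl fun l _ => ?_
    ring
  have h2 : ∀ k l, H k l * (R.transpose.mulVec v k * R.transpose.mulVec w l) =
      ∑ i, ∑ j, H k l * ((R i k * v i) * (R j l * w j)) := by
    intro k l
    have e1 : R.transpose.mulVec v k = ∑ i, R i k * v i := rfl
    have e2 : R.transpose.mulVec w l = ∑ j, R j l * w j := rfl
    rw [e1, e2, Finset.sum_mul_sum, Finset.mul_sum]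
    refine Finset.sum_congr rfl fun i _ => ?_
    rw [Finset.mul_sum]
  simp only [h1, h2]
  exact Rot_sum4 _

private noncomputable def Rot_L (M : Matrix (Fin (d + 1)) (Fin (d + 1)) ℝ) : V d →L[ℝ] V d :=
  (Matrix.mulVecLin M).toContinuousLinearMap

private theorem Rot_L_apply (M : Matrix (Fin (d + 1)) (Fin (d + 1)) ℝ) (x : V d) :
    Rot_L M x = M.mulVec x := rfl

private theorem Rot_deriv (M : Matrix (Fin (d + 1)) (Fin (d + 1)) ℝ) {γ : ℝ → V d} {t : ℝ}
    (h : DifferentiableAt ℝ γ t) : deriv (fun s => M.mulVec (γ s)) t = M.mulVec (deriv γ t) := by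
  have h1 := (Rot_L M).hasFDerivAt.comp_hasDerivAt t h.hasDerivAt
  exact h1.deriv

private theorem Rot_smooth (R : Matrix (Fin (d + 1)) (Fin (d + 1)) ℝ)
    (hinj : ∀ x : V d, R.transpose.mulVec x = 0 → x = 0) {G : ℝ → Ten d} {ε : ℝ}
    (hG : ContDiffOn ℝ (⊤ : ℕ∞) (fun p : ℝ × V d => G p.1 p.2) (Set.Ioo (-ε) ε ×ˢ {0}ᶜ)) :
    ContDiffOn ℝ (⊤ : ℕ∞) (fun p : ℝ × V d => rotT R (G p.1) p.2) (Set.Ioo (-ε) ε ×ˢ {0}ᶜ) := by
  have hc : ContDiff ℝ (⊤ : ℕ∞) (fun p : ℝ × V d => (p.1, Rot_L R.transpose p.2)) :=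
    contDiff_fst.prodMk ((Rot_L R.transpose).contDiff.comp contDiff_snd)
  have hcomp := hG.comp hc.contDiffOn (s := Set.Ioo (-ε) ε ×ˢ {0}ᶜ) (by
    rintro ⟨t, x⟩ ⟨ht, hx⟩
    exact ⟨ht, fun h0 => hx (hinj x h0)⟩)
  refine contDiffOn_pi.2 fun i => contDiffOn_pi.2 fun j => ?_
  have hkl : ∀ k l, ContDiffOn ℝ (⊤ : ℕ∞)
      (fun p : ℝ × V d => G p.1 (R.transpose.mulVec p.2) k l) (Set.Ioo (-ε) ε ×ˢ {0}ᶜ) := by
    intro k l
    exact contDiffOn_pi.1 (contDiffOn_pi.1 hcomp k) l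
  show ContDiffOn ℝ (⊤ : ℕ∞) (fun p : ℝ × V d =>
    ∑ k, ∑ l, R i k * R j l * G p.1 (R.transpose.mulVec p.2) k l) _
  exact ContDiffOn.sum fun k _ => ContDiffOn.sum fun l _ => contDiffOn_const.mul (hkl k l)

private theorem Rot_smooth1 (R : Matrix (Fin (d + 1)) (Fin (d + 1)) ℝ)
    (hinj : ∀ x : V d, R.transpose.mulVec x = 0 → x = 0) {G : Ten d}
    (hG : ContDiffOn ℝ (⊤ : ℕ∞) G {0}ᶜ) : ContDiffOn ℝ (⊤ : ℕ∞) (rotT R G) {0}ᶜ := by
  have hcomp := hG.comp (Rot_L R.transpose).contDiff.contDiffOn (s := {0}ᶜ) (by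
    intro x hx h0
    exact hx (hinj x h0))
  refine contDiffOn_pi.2 fun i => contDiffOn_pi.2 fun j => ?_
  have hkl : ∀ k l, ContDiffOn ℝ (⊤ : ℕ∞)
      (fun x : V d => G (R.transpose.mulVec x) k l) {0}ᶜ := by
    intro k l
    exact contDiffOn_pi.1 (contDiffOn_pi.1 hcomp k) l
  show ContDiffOn ℝ (⊤ : ℕ∞) (fun x : V d =>
    ∑ k, ∑ l, R i k * R j l * G (R.transpose.mulVec x) k l) _
  exact ContDiffOn.sum fun k _ => ContDiffOn.sum fun l _ => contDiffOn_const.mul (hkl k l)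

private theorem Rot_energy (R : Matrix (Fin (d + 1)) (Fin (d + 1)) ℝ)
    (hTR : ∀ x : V d, R.transpose.mulVec (R.mulVec x) = x) (G : Ten d) {γ : ℝ → V d}
    (hγ : Differentiable ℝ γ) (a b : ℝ) :
    Z.energy (rotT R G) (fun t => R.mulVec (γ t)) a b = Z.energy G γ a b := by
  unfold Z.energy
  congr 1
  funext t
  rw [val_rotT, Rot_deriv R (hγ t), hTR, hTR]

theorem InT_rotT (R : Matrix (Fin (d + 1)) (Fin (d + 1)) ℝ) (hR : R ∈ Matrix.orthogonalGroup (Fin (d + 1)) ℝ)
    (h : Ten d) (hh : InT h) : InT (rotT R h) := by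
  have hm1 : R * R.transpose = 1 := (Matrix.mem_orthogonalGroup_iff _ _).1 hR
  have hm2 : R.transpose * R = 1 := (Matrix.mem_orthogonalGroup_iff' _ _).1 hR
  have hTR : ∀ x : V d, R.transpose.mulVec (R.mulVec x) = x := by
    intro x
    rw [Matrix.mulVec_mulVec, hm2, Matrix.one_mulVec]
  have hRT : ∀ x : V d, R.mulVec (R.transpose.mulVec x) = x := by
    intro x
    rw [Matrix.mulVec_mulVec, hm1, Matrix.one_mulVec]
  have hdot : ∀ x y : V d, R.transpose.mulVec x ⬝ᵥ R.transpose.mulVec y = x ⬝ᵥ y := by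
    intro x y
    rw [Matrix.dotProduct_mulVec, Matrix.vecMul_transpose, hRT]
  have hdot' : ∀ x y : V d, R.mulVec x ⬝ᵥ R.mulVec y = x ⬝ᵥ y := by
    intro x y
    rw [← hdot (R.mulVec x) (R.mulVec y), hTR, hTR]
  have hinj : ∀ x : V d, R.transpose.mulVec x = 0 → x = 0 := by
    intro x hx
    rw [← hRT x, hx, Matrix.mulVec_zero]
  have htan : ∀ x v : V d, Tan x v → Tan (R.transpose.mulVec x) (R.transpose.mulVec v) := by
    rintro x v ⟨h1, h2⟩
    exact ⟨by rw [hdot, h1], by rw [hdot, h2]⟩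
  obtain ⟨ε, hε, G, hsm, hzoll, hzero, hder⟩ := hh
  refine ⟨ε, hε, fun t => rotT R (G t), Rot_smooth R hinj hsm, ?_, ?_, ?_⟩
  · intro t ht
    obtain ⟨hmet, L, hL, hgeo⟩ := hzoll t ht
    refine ⟨⟨Rot_smooth1 R hinj hmet.smooth, ?_, ?_⟩, L, hL, ?_⟩
    · intro x i j
      show ∑ k, ∑ l, R i k * R j l * G t (R.transpose.mulVec x) k l =
        ∑ k, ∑ l, R j k * R i l * G t (R.transpose.mulVec x) k l
      rw [Finset.sum_comm]
      refine Finset.sum_congr rfl fun k _ => Finset.sum_congr rfl fun l _ => ?_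
      rw [hmet.symm]
      ring
    · intro x v hxv hv
      rw [val_rotT]
      exact hmet.pos _ _ (htan x v hxv) fun h0 => hv (hinj v h0)
    · intro γ hγ hsp
      have hγd : Differentiable ℝ γ := hγ.smooth.differentiable (by simp)
      have hsm' : ContDiff ℝ (⊤ : ℕ∞) (fun s => R.transpose.mulVec (γ s)) :=
        (Rot_L R.transpose).contDiff.comp hγ.smooth
      have hg : Z.IsGeodesic (G t) (fun s => R.transpose.mulVec (γ s)) := by
        refine ⟨hsm', fun s => ?_, ?_⟩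
        · show R.transpose.mulVec (γ s) ⬝ᵥ R.transpose.mulVec (γ s) = 1
          rw [hdot, hγ.sphere]
        · intro a b Γ hab hΓ
          have hV : Z.IsVariation γ a b (fun p => R.mulVec (Γ p)) := by
            refine ⟨(Rot_L R).contDiff.comp hΓ.smooth, fun p => ?_, fun s => ?_,
              fun s s' hs => ?_⟩
            · show R.mulVec (Γ p) ⬝ᵥ R.mulVec (Γ p) = 1
              rw [hdot', hΓ.sphere]
            · show R.mulVec (Γ (0, s)) = γ s
              rw [hΓ.start, hRT]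
            · show R.mulVec (Γ (s, s')) = γ s'
              rw [hΓ.fixed s s' hs, hRT]
          have hc := hγ.crit a b _ hab hV
          have he : (fun s => Z.energy (rotT R (G t)) (fun s' => R.mulVec (Γ (s, s'))) a b) =
              fun s => Z.energy (G t) (fun s' => Γ (s, s')) a b := by
            funext s
            refine Rot_energy R hTR (G t) (γ := fun s' => Γ (s, s')) ?_ a b
            have : ContDiff ℝ (⊤ : ℕ∞) (fun s' => Γ (s, s')) :=
              hΓ.smooth.comp (contDiff_const.prodMk contDiff_id)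
            exact this.differentiable (by simp)
          rw [← he]
          exact hc
      have hsp' : ∀ s, val (G t) (R.transpose.mulVec (γ s))
          (deriv (fun s => R.transpose.mulVec (γ s)) s)
          (deriv (fun s => R.transpose.mulVec (γ s)) s) = 1 := by
        intro s
        rw [Rot_deriv R.transpose (hγd s), ← val_rotT]
        exact hsp s
      obtain ⟨hp, hi⟩ := hgeo _ hg hsp'
      refine ⟨fun s => ?_, fun s hs s' hs' hss => ?_⟩
      · have := congrArg R.mulVec (hp s)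
        simpa only [hRT] using this
      · exact hi hs hs' (congrArg R.transpose.mulVec hss)
  · intro x v w hv hw
    rw [val_rotT, hzero _ _ _ (htan x v hv) (htan x w hw), hdot]
  · intro x v w hv hw
    simp only [val_rotT]
    exact hder _ _ _ (htan x v hv) (htan x w hw)

end Pool.Agent.Work.MP_659252_gt.S
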